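import Pool.Agent.H66.GUS.Targets
import Pool.Agent.H18.GUA.CN

/-!
Row CN of the chapter A2/A3 of the project GUS on `MP_c59857_nt`: changing the length and the
function.
-/

set_option autoImplicit false

open Finset

namespace Pool.Agent.H66.GUS

open Pool.Agent.H31.DP Pool.Agent.H31.DPD Pool.Agent.H66.GUA
open Pool.Agent.H18.GUA (cn_norm_ee cn_abs_prod)

theorem abs_GCu {d : ℕ} (u : ℤ → ℝ) (hu : ∀ n, |u n| ≤ 1) (s : Fin d → ℤ) (y : ℤ) :
    |GCu u s y| ≤ 1 := by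
  unfold GCu
  exact cn_abs_prod _ _ fun I _ => hu _

theorem IC_mono {d : ℕ} {N N' : ℕ} (hN : N' ≤ N) (s : Fin d → ℤ) : IC N' s ⊆ IC N s := by
  have hNz : (N' : ℤ) ≤ N := by exact_mod_cast hN
  intro y hy
  unfold IC at hy ⊢
  rw [Finset.mem_filter, Finset.mem_Icc] at hy ⊢
  exact ⟨⟨hy.1.1, hy.1.2.trans hNz⟩, fun I => ⟨(hy.2 I).1, (hy.2 I).2.trans hNz⟩⟩

theorem IC_diff_card {d : ℕ} {N N' : ℕ} (hN : N' ≤ N) (s : Fin d → ℤ) :
    ((IC N s \ IC N' s).card : ℝ) ≤ 2 ^ d * ((N : ℝ) - N') := by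
  classical
  have h1 : IC N s \ IC N' s ⊆ (Finset.univ : Finset (Finset (Fin d))).biUnion
      fun I => (Finset.Ioc (N' : ℤ) N).image fun z => z - sI s I := by
    intro y hy
    rw [Finset.mem_sdiff] at hy
    obtain ⟨hy1, hy2⟩ := hy
    unfold IC at hy1 hy2
    rw [Finset.mem_filter, Finset.mem_Icc] at hy1
    have h2 : ∃ I : Finset (Fin d), (N' : ℤ) < y + sI s I := by
      by_contra hcon
      push Not at hcon
      apply hy2
      rw [Finset.mem_filter, Finset.mem_Icc]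
      have h3 := hcon ∅
      unfold sI at h3
      rw [Finset.sum_empty, add_zero] at h3
      exact ⟨⟨hy1.1.1, h3⟩, fun I => ⟨(hy1.2 I).1, hcon I⟩⟩
    obtain ⟨I, hI⟩ := h2
    rw [Finset.mem_biUnion]
    refine ⟨I, Finset.mem_univ _, Finset.mem_image.2 ⟨y + sI s I, ?_, by ring⟩⟩
    rw [Finset.mem_Ioc]
    exact ⟨hI, (hy1.2 I).2⟩
  have h2 : (IC N s \ IC N' s).card ≤ 2 ^ d * (N - N') := by
    refine (Finset.card_le_card h1).trans (Finset.card_biUnion_le.trans ?_)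
    have h3 : ∀ I ∈ (Finset.univ : Finset (Finset (Fin d))),
        ((Finset.Ioc (N' : ℤ) N).image fun z => z - sI s I).card ≤ N - N' := by
      intro I _
      refine Finset.card_image_le.trans ?_
      rw [Int.card_Ioc]
      omega
    refine (Finset.sum_le_sum h3).trans ?_
    rw [Finset.sum_const, Finset.card_univ, Fintype.card_finset, Fintype.card_fin, smul_eq_mul]
  calc ((IC N s \ IC N' s).card : ℝ) ≤ ((2 ^ d * (N - N') : ℕ) : ℝ) := by exact_mod_cast h2
    _ = 2 ^ d * ((N : ℝ) - N') := by push_cast [Nat.cast_sub hN]; ring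

/-- The difference of two products of numbers of absolute value at most one. -/
theorem abs_prod_sub_prod {ι : Type} (S : Finset ι) (f g : ι → ℝ) (hf : ∀ i ∈ S, |f i| ≤ 1)
    (hg : ∀ i ∈ S, |g i| ≤ 1) : |∏ i ∈ S, f i - ∏ i ∈ S, g i| ≤ ∑ i ∈ S, |f i - g i| := by
  classical
  induction S using Finset.induction_on with
  | empty => simp
  | insert a S ha ih =>
    rw [Finset.prod_insert ha, Finset.prod_insert ha, Finset.sum_insert ha]
    have h1 := ih (fun i hi => hf i (Finset.mem_insert_of_mem hi))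
      (fun i hi => hg i (Finset.mem_insert_of_mem hi))
    have h2 : |∏ i ∈ S, f i| ≤ 1 := cn_abs_prod _ _ fun i hi => hf i (Finset.mem_insert_of_mem hi)
    have h3 : |g a| ≤ 1 := hg a (Finset.mem_insert_self a S)
    have h4 : f a * ∏ i ∈ S, f i - g a * ∏ i ∈ S, g i =
        (f a - g a) * ∏ i ∈ S, f i + g a * (∏ i ∈ S, f i - ∏ i ∈ S, g i) := by ring
    rw [h4]
    refine (abs_add_le _ _).trans (add_le_add ?_ ?_)
    · rw [abs_mul]
      exact mul_le_of_le_one_right (abs_nonneg _) h2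
    · rw [abs_mul]
      exact (mul_le_of_le_one_left (abs_nonneg _) h3).trans h1

theorem IC_sum_vertex {d : ℕ} (N' : ℕ) (s : Fin d → ℤ) (w : ℤ → ℝ) (hw : ∀ n, 0 ≤ w n)
    (I : Finset (Fin d)) :
    ∑ n ∈ IC N' s, w (n + sI s I) ≤ ∑ n ∈ Finset.Icc (1 : ℤ) N', w n := by
  classical
  have h1 : ∑ n ∈ IC N' s, w (n + sI s I) =
      ∑ m ∈ (IC N' s).image (fun n => n + sI s I), w m := by
    rw [Finset.sum_image (fun a _ b _ hab => by simpa using hab)]
  rw [h1]
  refine Finset.sum_le_sum_of_subset_of_nonneg (fun m hm => ?_) fun m _ _ => hw m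
  obtain ⟨n, hn, rfl⟩ := Finset.mem_image.1 hm
  unfold IC at hn
  rw [Finset.mem_filter] at hn
  rw [Finset.mem_Icc]
  exact hn.2 I

theorem pf_CNu : T_CNu := by
  classical
  intro d u v σ N N' E s θ hN hσ hu hv hE
  have hsub : IC N' s ⊆ IC N s := IC_mono hN s
  have hsplit : hsu u N s θ = hsu u N' s θ +
      ∑ n ∈ IC N s \ IC N' s, ((GCu u s n : ℝ) : ℂ) * ee (n * θ) := by
    unfold hsu
    rw [add_comm, Finset.sum_sdiff hsub]
  -- the sign
  have hσv : ((σ ^ (2 ^ d) : ℝ) : ℂ) * hsu v N' s θ =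
      ∑ n ∈ IC N' s, ((GCu (fun n => σ * v n) s n : ℝ) : ℂ) * ee (n * θ) := by
    unfold hsu
    rw [Finset.mul_sum]
    refine Finset.sum_congr rfl fun n _ => ?_
    have : GCu (fun n => σ * v n) s n = σ ^ (2 ^ d) * GCu v s n := by
      unfold GCu
      rw [Finset.prod_mul_distrib, Finset.prod_const, Finset.card_univ, Fintype.card_finset,
        Fintype.card_fin]
    rw [this, Complex.ofReal_mul, mul_assoc]
  have hnorm : ‖((σ ^ (2 ^ d) : ℝ) : ℂ) * hsu v N' s θ‖ = ‖hsu v N' s θ‖ := by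
    rw [norm_mul, Complex.norm_real, Real.norm_eq_abs, abs_pow, hσ, one_pow, one_mul]
  have hσv1 : ∀ n, |σ * v n| ≤ 1 := fun n => by
    rw [abs_mul, hσ, one_mul]
    exact hv n
  have hdiff : ‖hsu u N' s θ - ((σ ^ (2 ^ d) : ℝ) : ℂ) * hsu v N' s θ‖ ≤ 2 ^ d * E := by
    rw [hσv]
    unfold hsu
    rw [← Finset.sum_sub_distrib]
    have h1 : ∀ n ∈ IC N' s, ‖((GCu u s n : ℝ) : ℂ) * ee (n * θ) -
        ((GCu (fun n => σ * v n) s n : ℝ) : ℂ) * ee (n * θ)‖ ≤
        ∑ I : Finset (Fin d), |u (n + sI s I) - σ * v (n + sI s I)| := by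
      intro n _
      rw [← sub_mul, norm_mul, cn_norm_ee, mul_one, ← Complex.ofReal_sub, Complex.norm_real,
        Real.norm_eq_abs]
      unfold GCu
      exact abs_prod_sub_prod _ _ _ (fun I _ => hu _) fun I _ => hσv1 _
    refine (norm_sum_le _ _).trans ((Finset.sum_le_sum h1).trans ?_)
    rw [Finset.sum_comm]
    have h2 : ∀ I ∈ (Finset.univ : Finset (Finset (Fin d))),
        ∑ n ∈ IC N' s, |u (n + sI s I) - σ * v (n + sI s I)| ≤ E := fun I _ =>
      (IC_sum_vertex N' s (fun n => |u n - σ * v n|) (fun n => abs_nonneg _) I).trans hE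
    refine (Finset.sum_le_sum h2).trans (le_of_eq ?_)
    rw [Finset.sum_const, nsmul_eq_mul, Finset.card_univ, Fintype.card_finset, Fintype.card_fin]
    push_cast
    ring
  rw [hsplit]
  have h7 : ‖hsu u N' s θ‖ ≤ ‖hsu v N' s θ‖ + 2 ^ d * E := by
    have h8 : hsu u N' s θ = ((σ ^ (2 ^ d) : ℝ) : ℂ) * hsu v N' s θ +
        (hsu u N' s θ - ((σ ^ (2 ^ d) : ℝ) : ℂ) * hsu v N' s θ) := by ring
    rw [h8]
    refine (norm_add_le _ _).trans ?_
    rw [hnorm]
    linarith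
  have h9 : ‖∑ n ∈ IC N s \ IC N' s, ((GCu u s n : ℝ) : ℂ) * ee (n * θ)‖ ≤
      2 ^ d * ((N : ℝ) - N') := by
    refine (norm_sum_le _ _).trans (le_trans ?_ (IC_diff_card hN s))
    rw [← nsmul_one, ← Finset.sum_const]
    refine Finset.sum_le_sum fun n _ => ?_
    rw [norm_mul, cn_norm_ee, mul_one, Complex.norm_real, Real.norm_eq_abs]
    exact abs_GCu u hu s n
  refine (norm_add_le _ _).trans ?_
  have h10 : (2 : ℝ) ^ d * ((N : ℝ) - N' + E) = 2 ^ d * E + 2 ^ d * ((N : ℝ) - N') := by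
    ring
  rw [h10]
  linarith

end Pool.Agent.H66.GUS
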