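import Pool.Agent.H66.GUS.Targets
import Pool.Agent.H79.GUA.CT

/-!
Row CT of the chapter A2/A3 of the project GUS on `MP_c59857_nt`.
-/

set_option autoImplicit false

open Finset Filter Topology

namespace Pool.Agent.H66.GUS

open Pool.Agent.H31.DP
open Pool.Agent.H31.DPD
open Pool.Agent.H66.GUA
open Pool.Agent.H91.LF (lz abs_lz_le)
open Pool.Agent.H24.T2 (Pset box cub)
open Pool.Agent.H79.GUA (ind_zero abs_ind_le abs_sI_le)

theorem abs_GGu_le {l d : ℕ} (Ψ : ℤ → ℝ) (hΨ : ∀ y, |Ψ y| ≤ 1) (M B : ℕ) (Q s₀ : ℤ)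
    (u : Fin d → ℤ) (S₀ S₁ : Finset (Finset (Fin d)))
    (x : Finset (Fin d) × Option (Fin l)) (z : ℤ) : |GGu Ψ M B Q s₀ u S₀ S₁ x z| ≤ 1 := by
  have h1 : ∀ (P : Prop) [Decidable P] (a b : ℝ), |a| ≤ 1 → |b| ≤ 1 → |if P then a else b| ≤ 1 := by
    intro P _ a b ha hb
    split_ifs
    · exact ha
    · exact hb
  obtain ⟨I, o⟩ := x
  unfold GGu
  rcases o with _ | i
  · simp only
    rw [abs_mul, abs_mul]
    exact mul_le_one₀ (abs_ind_le _) (mul_nonneg (abs_nonneg _) (abs_nonneg _))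
      (mul_le_one₀ (h1 _ _ _ (by simp) (hΨ _)) (abs_nonneg _) (h1 _ _ _ (by simp) (hΨ _)))
  · simp only
    rw [abs_mul, abs_mul]
    exact mul_le_one₀ (abs_ind_le _) (mul_nonneg (abs_nonneg _) (abs_nonneg _))
      (mul_le_one₀ (h1 _ _ _ (abs_lz_le _) (by simp)) (abs_nonneg _)
        (h1 _ _ _ (abs_lz_le _) (by simp)))

theorem GGu_zero {l d : ℕ} (Ψ : ℤ → ℝ) (M B : ℕ) (Q s₀ : ℤ) (u : Fin d → ℤ)
    (S₀ S₁ : Finset (Finset (Fin d)))
    (hQ : ∀ i, |Q * u i| ≤ (M : ℤ)) (x : Finset (Fin d) × Option (Fin l)) (z : ℤ)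
    (hz : z ∉ Finset.Icc (1 - (d * M : ℤ)) ((M : ℤ) + B + d * M)) :
    GGu Ψ M B Q s₀ u S₀ S₁ x z = 0 := by
  obtain ⟨I, o⟩ := x
  have h1 := abs_le.1 (abs_sI_le M Q u hQ I)
  rw [Finset.mem_Icc] at hz
  unfold GGu
  rcases o with _ | i
  · simp only
    rw [ind_zero, zero_mul]
    intro h
    refine hz ?_
    constructor <;> linarith [h.1.1, h.1.2, h1.1, h1.2, (Nat.cast_nonneg B : (0 : ℤ) ≤ B)]
  · simp only
    rw [ind_zero, zero_mul]
    intro h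
    refine hz ?_
    constructor <;> linarith [h.1, h.2, h1.1, h1.2]

/-- The inequality for one pair of sets of vertices. -/
theorem ct_one (hGZ : T_GZ) (d l : ℕ) (h : Fin l → ℕ) (Ψ : ℤ → ℝ) (A : Finset ℕ) (B X M : ℕ)
    (Q s₀ : ℤ) (u c : Fin d → ℤ) (w : ℤ → ℂ) (S₀ S₁ : Finset (Finset (Fin d)))
    (hΨ : ∀ y, |Ψ y| ≤ 1) (hX : ∀ p ∈ A, ∀ q ∈ A, |(p : ℤ) - q| ≤ (X : ℤ))
    (hQ : ∀ i, |Q * u i| ≤ (M : ℤ)) :
    ‖∑ p ∈ A, w p * ∑ y ∈ Finset.Icc (1 : ℤ) M, ((∏ x : Finset (Fin d) × Option (Fin l),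
        GGu Ψ M B Q s₀ u S₀ S₁ x (y + p * vv h c x) : ℝ) : ℂ)‖ ^ (2 ^ nf d l) ≤
      ((2 * d + 1) * (M : ℝ) + B) ^ (2 ^ nf d l) *
        (2 * X + 1) ^ (2 ^ nf d l - (nf d l + 1)) *
        (Uc X (nf d l) (A.map Nat.castEmbedding) w).re := by
  classical
  have hcard : Fintype.card (Finset (Fin d) × Option (Fin l)) = nf d l := by
    rw [Fintype.card_prod, Fintype.card_finset, Fintype.card_fin, Fintype.card_option,
      Fintype.card_fin]
    rfl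
  have hpos : 0 < nf d l := by unfold nf; positivity
  have h1 := hGZ (Finset (Fin d) × Option (Fin l)) X ((2 * d + 1) * M + B)
    (Finset.Icc (1 - (d * M : ℤ)) ((M : ℤ) + B + d * M)) (Finset.Icc (1 : ℤ) M)
    (fun x z => ((GGu Ψ M B Q s₀ u S₀ S₁ x z : ℝ) : ℂ)) (vv h c) (A.map Nat.castEmbedding) w
    (by rw [hcard]; exact hpos) ?_ ?_ ?_ ?_ ?_
  · rw [hcard, Finset.sum_map] at h1
    have h2 : ∑ p ∈ A, w p * ∑ y ∈ Finset.Icc (1 : ℤ) M,
        ((∏ x : Finset (Fin d) × Option (Fin l),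
          GGu Ψ M B Q s₀ u S₀ S₁ x (y + p * vv h c x) : ℝ) : ℂ) =
        ∑ p ∈ A, w (Nat.castEmbedding p : ℤ) * ∑ y ∈ Finset.Icc (1 : ℤ) M,
          ∏ x : Finset (Fin d) × Option (Fin l),
            ((GGu Ψ M B Q s₀ u S₀ S₁ x (y + (Nat.castEmbedding p : ℤ) * vv h c x) : ℝ) : ℂ) := by
      refine Finset.sum_congr rfl fun p _ => ?_
      rw [Nat.castEmbedding_apply]
      refine congrArg _ (Finset.sum_congr rfl fun y _ => ?_)
      push_cast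
      rfl
    rw [h2]
    refine h1.trans (le_of_eq ?_)
    push_cast
    rfl
  · rw [Int.card_Icc]
    have h3 : (M : ℤ) + B + d * M + 1 - (1 - d * M) = (((2 * d + 1) * M + B : ℕ) : ℤ) := by
      push_cast; ring
    rw [h3, Int.toNat_natCast]
  · intro x z
    rw [Complex.norm_real, Real.norm_eq_abs]
    exact abs_GGu_le Ψ hΨ _ _ _ _ _ _ _ _ _
  · intro x z hz
    rw [GGu_zero Ψ M B Q s₀ u S₀ S₁ hQ x z hz, Complex.ofReal_zero]
  · intro p hp q hq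
    rw [Finset.mem_map] at hp hq
    obtain ⟨p, hp, rfl⟩ := hp
    obtain ⟨q, hq, rfl⟩ := hq
    exact hX p hp q hq
  · intro p _ y hy
    refine Finset.prod_eq_zero (Finset.mem_univ ((∅ : Finset (Fin d)), (none : Option (Fin l)))) ?_
    rw [Complex.ofReal_eq_zero]
    unfold GGu vv
    simp only
    have h6 : ∀ a : ℝ, ∀ P : Prop, ¬ P → ind P * a = 0 := fun a P hP => by
      rw [ind_zero hP, zero_mul]
    refine h6 _ _ fun h3 => hy ?_
    have h4 : sI c (∅ : Finset (Fin d)) = 0 := by simp [sI]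
    have h5 : sI u (∅ : Finset (Fin d)) = 0 := by simp [sI]
    rw [h4, h5] at h3
    rw [Finset.mem_Icc]
    simpa using h3.1

theorem pf_CTu (hPR : T_PRu) (hGZ : T_GZ) : T_CTu := by
  classical
  intro d l h Ψ A B X M Q s₀ u c w hΨ hB hX hQ
  obtain ⟨D, hD⟩ : ∃ D, D = 2 ^ nf d l := ⟨_, rfl⟩
  obtain ⟨T, hT⟩ : ∃ T : Finset (Finset (Fin d)) × Finset (Finset (Fin d)) → ℂ,
      T = fun S => ∑ p ∈ A, w p * ∑ y ∈ Finset.Icc (1 : ℤ) M,
        ((∏ x : Finset (Fin d) × Option (Fin l),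
          GGu Ψ M B Q s₀ u S.1 S.2 x (y + p * vv h c x) : ℝ) : ℂ) := ⟨_, rfl⟩
  obtain ⟨S, -, hS⟩ := Finset.exists_max_image
    (Finset.univ : Finset (Finset (Finset (Fin d)) × Finset (Finset (Fin d)))) (fun S => ‖T S‖)
    ⟨(∅, ∅), Finset.mem_univ _⟩
  have h1 := ct_one hGZ d l h Ψ A B X M Q s₀ u c w S.1 S.2 hΨ hX hQ
  have h2 : (2 : ℂ) ^ (2 * 2 ^ d) * ∑ p ∈ A, w p *
      ((CAu (uh h Ψ p) M (cns s₀ (fun i => Q * u i + p * c i)) : ℝ) : ℂ) =
      ∑ S : Finset (Finset (Fin d)) × Finset (Finset (Fin d)),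
        (-1) ^ (S.1.card + S.2.card) * T S := by
    rw [Finset.mul_sum]
    have h3 : ∀ p ∈ A, (2 : ℂ) ^ (2 * 2 ^ d) * (w p *
        ((CAu (uh h Ψ p) M (cns s₀ (fun i => Q * u i + p * c i)) : ℝ) : ℂ)) =
        ∑ S : Finset (Finset (Fin d)) × Finset (Finset (Fin d)),
          (-1) ^ (S.1.card + S.2.card) * (w p * ∑ y ∈ Finset.Icc (1 : ℤ) M,
            ((∏ x : Finset (Fin d) × Option (Fin l),
              GGu Ψ M B Q s₀ u S.1 S.2 x (y + p * vv h c x) : ℝ) : ℂ)) := by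
      intro p hp
      have h4 := congrArg (fun r : ℝ => (r : ℂ)) (hPR d l h Ψ p B M Q s₀ u c (hB p hp))
      push_cast at h4
      have h5 : (2 : ℂ) ^ (2 * 2 ^ d) * (w p *
          ((CAu (uh h Ψ p) M (cns s₀ (fun i => Q * u i + p * c i)) : ℝ) : ℂ)) =
          w p * ((2 : ℂ) ^ (2 * 2 ^ d) *
          ((CAu (uh h Ψ p) M (cns s₀ (fun i => Q * u i + p * c i)) : ℝ) : ℂ)) := by ring
      rw [h5, h4, Fintype.sum_prod_type, Finset.mul_sum]
      refine Finset.sum_congr rfl fun S₀ _ => ?_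
      rw [Finset.mul_sum]
      refine Finset.sum_congr rfl fun S₁ _ => ?_
      push_cast
      ring
    rw [Finset.sum_congr rfl h3, Finset.sum_comm]
    refine Finset.sum_congr rfl fun S _ => ?_
    rw [hT, ← Finset.mul_sum]
  have h6 : ‖∑ p ∈ A, w p *
      ((CAu (uh h Ψ p) M (cns s₀ (fun i => Q * u i + p * c i)) : ℝ) : ℂ)‖ ≤ ‖T S‖ := by
    have h7 : (2 : ℝ) ^ (2 * 2 ^ d) * ‖∑ p ∈ A, w p *
        ((CAu (uh h Ψ p) M (cns s₀ (fun i => Q * u i + p * c i)) : ℝ) : ℂ)‖ ≤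
        (2 : ℝ) ^ (2 * 2 ^ d) * ‖T S‖ := by
      have h8 : (2 : ℝ) ^ (2 * 2 ^ d) * ‖∑ p ∈ A, w p *
          ((CAu (uh h Ψ p) M (cns s₀ (fun i => Q * u i + p * c i)) : ℝ) : ℂ)‖ =
          ‖(2 : ℂ) ^ (2 * 2 ^ d) * ∑ p ∈ A, w p *
            ((CAu (uh h Ψ p) M (cns s₀ (fun i => Q * u i + p * c i)) : ℝ) : ℂ)‖ := by
        rw [norm_mul, norm_pow]
        simp
      rw [h8, h2]
      refine (norm_sum_le _ _).trans ?_
      have h9 : ∀ R ∈ (Finset.univ : Finset (Finset (Finset (Fin d)) × Finset (Finset (Fin d)))),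
          ‖(-1 : ℂ) ^ (R.1.card + R.2.card) * T R‖ ≤ ‖T S‖ := by
        intro R hR
        rw [norm_mul, norm_pow, norm_neg, norm_one, one_pow, one_mul]
        exact hS R hR
      refine (Finset.sum_le_sum h9).trans (le_of_eq ?_)
      rw [Finset.sum_const, nsmul_eq_mul, Finset.card_univ, Fintype.card_prod,
        Fintype.card_finset, Fintype.card_finset, Fintype.card_fin]
      push_cast
      rw [two_mul, pow_add]
    exact le_of_mul_le_mul_left h7 (by positivity)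
  refine (pow_le_pow_left₀ (norm_nonneg _) h6 _).trans ?_
  rw [hT]
  exact h1

end Pool.Agent.H66.GUS
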