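import Pool.Agent.H66.GUS.Targets
import Pool.Agent.H11.GUA.DL

/-!
Rows DL and EV of the chapter A2/A3 of the project GUS on `MP_c59857_nt`.
-/

set_option autoImplicit false

open Finset

namespace Pool.Agent.H66.GUS

open Pool.Agent.H31.DP Pool.Agent.H31.DPD Pool.Agent.H66.GUA
open Pool.Agent.H3.DPD (sq_sI)

theorem dl_GCu {d : ℕ} (u : ℤ → ℝ) (p : ℕ) (s : Fin d → ℤ) (y : ℤ) :
    GCu u (sm p s) ((p : ℤ) * y) = GCu (fun n => u (p * n)) s y := by
  unfold GCu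
  refine Finset.prod_congr rfl fun I _ => ?_
  have h2 : sI (sm p s) I = (p : ℤ) * sI s I := sq_sI (p : ℤ) s I
  rw [h2, ← mul_add]

theorem pf_DLu : T_DLu := by
  intro d u p M s θ hp0
  have hpZ : (p : ℤ) ≠ 0 := by exact_mod_cast hp0.ne'
  have hpR : (p : ℝ) ≠ 0 := by exact_mod_cast hp0.ne'
  unfold hsu
  refine Finset.sum_bij' (fun y _ => y / (p : ℤ)) (fun n _ => (p : ℤ) * n) ?_ ?_ ?_ ?_ ?_
  · intro y hy
    obtain ⟨h1, n, rfl⟩ := Finset.mem_filter.1 hy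
    rw [Int.mul_ediv_cancel_left _ hpZ]
    exact (Pool.Agent.H11.GUA.dl_IC hp0 s n).1 h1
  · intro n hn
    exact Finset.mem_filter.2 ⟨(Pool.Agent.H11.GUA.dl_IC hp0 s n).2 hn, Dvd.intro _ rfl⟩
  · intro y hy
    obtain ⟨h1, n, rfl⟩ := Finset.mem_filter.1 hy
    rw [Int.mul_ediv_cancel_left _ hpZ]
  · intro n hn
    rw [Int.mul_ediv_cancel_left _ hpZ]
  · intro y hy
    obtain ⟨h1, n, rfl⟩ := Finset.mem_filter.1 hy
    rw [Int.mul_ediv_cancel_left _ hpZ, dl_GCu]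
    have h3 : (((p : ℤ) * n : ℤ) : ℝ) * (θ / p) = n * θ := by
      push_cast
      field_simp
    rw [h3]

theorem IC_empty' {d : ℕ} (M : ℕ) (s₀ : ℤ) (z : Fin d → ℤ) (i : Fin d) (hi : (M : ℤ) ≤ |z i|) :
    IC M (cns s₀ z) = ∅ := by
  rw [Finset.eq_empty_iff_forall_notMem]
  intro y hy
  rw [IC, Finset.mem_filter] at hy
  have h1 := hy.2 ∅
  have h2 := hy.2 {i.succ}
  rw [sI, Finset.sum_empty] at h1
  rw [sI, Finset.sum_singleton] at h2
  have e : cns s₀ z i.succ = z i := by simp [cns]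
  rw [e] at h2
  rcases abs_cases (z i) with h | h <;> omega

theorem pf_EVu : T_EVu := by
  intro d u p Q M z hz
  obtain ⟨i, hi⟩ := hz
  constructor
  · intro φ
    unfold RZu
    refine Finset.sum_eq_zero fun s₀ _ => ?_
    rw [CAu, IC_empty' M s₀ z i hi]
    simp
  · unfold TZu
    refine Finset.sum_eq_zero fun s₀ _ => ?_
    rw [TTu, IC_empty' M s₀ z i hi]
    simp

end Pool.Agent.H66.GUS
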