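import Pool.Agent.H66.GUS.GB
import Pool.Agent.H33.DP.SQ

/-!
Module GA of the chapter A2/A3 of the project GUS on `MP_c59857_nt`: the bridge to the
statement `T_GAS` of the project GS.
-/

set_option autoImplicit false

open Finset Filter Topology

namespace Pool.Agent.H66.GUS

open Pool.Agent.H24.T2 (Pset)
open Pool.Agent.H31.DP
open Pool.Agent.H31.DPD
open Pool.Agent.H66.GUA
open Pool.Agent.H28.GU (Dl hat aff)
open Pool.Agent.H28.GUG (cut)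
open Pool.Agent.H28.GS (Hs gs DDH)
open Pool.Agent.H33.DP (sq_FF)

theorem DDH_eq (d : ℕ) {l : ℕ} (h : Fin l → ℕ) (Ψ : ℤ → ℝ) (p M : ℕ) :
    DDH d (Hs h Ψ p) p M = DDu d (uh h Ψ p) p M := rfl

theorem abs_gs_le {l : ℕ} (h : Fin l → ℕ) (E : ℤ → ℝ) (hE : ∀ y, |E y| ≤ 1) (y : ℤ) :
    |gs h E y| ≤ 1 := by
  unfold gs
  have h1 := abs_le.1 (abs_FF_le h 1 y)
  have h2 := abs_le.1 (hE y)
  rw [abs_le]
  constructor <;> linarith [h1.1, h1.2, h2.1, h2.2]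

theorem gs_sub {l : ℕ} (h : Fin l → ℕ) (Ψ E : ℤ → ℝ) (p : ℕ) (hp : p.Prime) (n : ℤ) :
    |gs h E n - (-1) ^ l * uh h Ψ p ((p : ℤ) * n)| =
      1 / 2 * |E n - (-1) ^ l * Ψ ((p : ℤ) * n)| := by
  unfold gs uh
  rw [sq_FF h hp]
  have h1 : ((-1 : ℝ) ^ l) * (-1) ^ l = 1 := by
    rw [← mul_pow]
    norm_num
  have h2 : (FF h 1 n - E n) / 2 - (-1) ^ l * (((-1) ^ l * FF h 1 n - Ψ ((p : ℤ) * n)) / 2) =
      -(1 / 2) * (E n - (-1) ^ l * Ψ ((p : ℤ) * n)) := by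
    have h3 : (-1 : ℝ) ^ l * (((-1) ^ l * FF h 1 n - Ψ ((p : ℤ) * n)) / 2) =
        ((((-1 : ℝ) ^ l) * (-1) ^ l) * FF h 1 n - (-1) ^ l * Ψ ((p : ℤ) * n)) / 2 := by ring
    rw [h3, h1]
    ring
  rw [h2, abs_mul, abs_neg, abs_of_pos (by norm_num : (0 : ℝ) < 1 / 2)]

theorem pf_GAS (hGB : T_GBu) (hGI : T_GIu) (hKN : T_KN) : Pool.Agent.H28.GS.T_GAS := by
  classical
  intro d l δ hδ
  obtain ⟨δ₁, hδ₁⟩ : ∃ δ₁ : ℝ, δ₁ = min δ 1 := ⟨_, rfl⟩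
  have hδ₁0 : 0 < δ₁ := by rw [hδ₁]; exact lt_min hδ one_pos
  have hδ₁1 : δ₁ ≤ 1 := by rw [hδ₁]; exact min_le_right _ _
  have hδ₁δ : δ₁ ≤ δ := by rw [hδ₁]; exact min_le_left _ _
  obtain ⟨κ, hκ, hGB'⟩ := hGB d l δ₁ hδ₁0 hδ₁1
  refine ⟨κ, hκ, κ, hκ, fun h α hα => ?_⟩
  obtain ⟨θ, hθ, m₀, hm₀⟩ := hGB' h α hα
  refine ⟨θ, hθ, m₀, fun m A P hm hA hcard hP0 hP1 hAP => ?_⟩
  obtain ⟨f, hf, N₀, hN₀⟩ := hm₀ m A P hm hA hcard hP0 hP1 hAP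
  obtain ⟨Q, hQ⟩ : ∃ Q, Q = primorial (2 ^ (m + 1)) := ⟨_, rfl⟩
  have hQ0 : 0 < Q := by rw [hQ]; exact primorial_pos _
  refine ⟨N₀ + 2 ^ nf d l * Q ^ (d + 1) + Q, 2 ^ (m + 1), 2 ^ nf d l, f, hf, ?_⟩
  intro M N q _ hN hMN hq1 hq2 Ψ E hΨ hE hsum hcl τ R hR hR2
  have hδq : ∀ z ∈ R, δ₁ * q ≤ ‖hsu (gs h E) N (lft z.1) (((τ z.1).val : ℝ) / q)‖ := by
    intro z hz
    have h1 := hR2 z hz
    rw [hGI d (gs h E) q N z.1 (τ z.1) hq1] at h1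
    refine le_trans ?_ h1
    exact mul_le_mul_of_nonneg_right hδ₁δ (Nat.cast_nonneg q)
  obtain ⟨x, t, c, r, F, ht, hvx, hF, hFy⟩ := hN₀ q N M (by omega) hMN hq1 hq2 Ψ (gs h E) hΨ
    (abs_gs_le h E hE) hsum (by
      intro p hp
      refine ⟨(-1) ^ l, by rw [abs_pow, abs_neg, abs_one, one_pow], ?_⟩
      have hpp := (mem_Pset (hA hp)).1
      rw [Finset.sum_congr rfl fun n _ => gs_sub h Ψ E p hpp n, ← Finset.mul_sum]
      have h1 := hcl p hp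
      have h2 : 0 ≤ κ * N := by positivity
      linarith) τ R
    (le_trans (mul_le_mul_of_nonneg_right hδ₁δ (by positivity)) hR) hδq
  rw [← hQ] at hvx hFy
  have hQN : Q ≤ N := by omega
  have hNq : 2 ^ nf d l * Q ^ (d + 1) < q := by
    have h1 : 0 < N := by omega
    omega
  have hQq : Q < q := by omega
  refine ⟨Finset (Fin (nf d l)), inferInstance,
    fun ω => (((Q : ℤ) / vx x t ω : ℤ) : ZMod q), fun ω => (vx x t ω).toNat,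
    fun ω => (-1) ^ ω.card * (((Q : ℤ) / vx x t ω : ℤ) : ZMod q), (Q : ZMod q), r, c, F,
    ?_, ?_, ?_, ?_, hF, ?_, ?_, ?_⟩
  · rw [Fintype.card_finset, Fintype.card_fin]
  · intro h0
    rw [ZMod.natCast_eq_zero_iff] at h0
    have := Nat.le_of_dvd hQ0 h0
    omega
  · intro ω
    obtain ⟨h1, h2, _⟩ := hvx ω
    have h3 : ((vx x t ω).toNat : ℤ) = vx x t ω := Int.toNat_of_nonneg h1.le
    constructor
    · have : (1 : ℤ) ≤ ((vx x t ω).toNat : ℤ) := by omega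
      exact_mod_cast this
    · have : ((vx x t ω).toNat : ℤ) ≤ ((2 ^ (m + 1) : ℕ) : ℤ) := by
        rw [h3]
        push_cast
        exact h2
      exact_mod_cast this
  · intro ω
    obtain ⟨h1, _, h2⟩ := hvx ω
    have h3 : ((vx x t ω).toNat : ℤ) = vx x t ω := Int.toNat_of_nonneg h1.le
    have h4 : (((vx x t ω).toNat : ℕ) : ZMod q) = ((vx x t ω : ℤ) : ZMod q) := by
      conv_rhs => rw [← h3]
      exact (Int.cast_natCast _).symm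
    rw [h4, ← Int.cast_mul, Int.ediv_mul_cancel h2]
    push_cast
    rfl
  · intro z hz ω
    exact (hFy z hz).1 ω
  · intro z hz
    exact (hFy z hz).2
  · have h1 := hKN (d + 1) (nf d l) Q x t (by omega) hQ0 ht
      (fun ω => ⟨(hvx ω).1, (hvx ω).2.2⟩) q hNq
    intro h2
    apply h1
    rw [← h2]
    apply Finset.sum_congr rfl
    intro ω _
    rw [pow_succ]
    ring

end Pool.Agent.H66.GUS
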