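import Pool.Agent.H66.GUS.Targets2
import Pool.Agent.H32.GUA.GI

/-!
Row GI of the chapter A2/A3 of the project GUS on `MP_c59857_nt`: the Fourier coefficients on the
cyclic group are integer sums.
-/

set_option autoImplicit false

open Finset Filter Topology

namespace Pool.Agent.H66.GUS

open Pool.Agent.H31.DP
open Pool.Agent.H31.DPD
open Pool.Agent.H66.GUA
open Pool.Agent.H28.GU (Dl hat)
open Pool.Agent.H28.GUG (cut)
open Pool.Agent.H32.GUA (Dl_val)

open Classical in
/-- The function `u`, cut to `[1, N]`. -/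
noncomputable def cutz (N : ℕ) (u : ℤ → ℝ) (y : ℤ) : ℝ := if 1 ≤ y ∧ y ≤ (N : ℤ) then u y else 0

theorem pf_GIu : T_GIu := by
  intro d u q _ N s ξ hN
  classical
  have hq : 0 < q := Nat.pos_of_ne_zero (NeZero.ne q)
  have hcut : ∀ x : ZMod q, cut q N u x = cutz N u (x.val : ℤ) := by
    intro x
    unfold cut cutz
    have e : (1 ≤ x.val ∧ x.val ≤ N) ↔ (1 ≤ (x.val : ℤ) ∧ (x.val : ℤ) ≤ (N : ℤ)) := by
      constructor
      · rintro ⟨h1, h2⟩
        exact ⟨by exact_mod_cast h1, by exact_mod_cast h2⟩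
      · rintro ⟨h1, h2⟩
        exact ⟨by exact_mod_cast h1, by exact_mod_cast h2⟩
    by_cases hx : 1 ≤ x.val ∧ x.val ≤ N
    · rw [if_pos hx, if_pos (e.1 hx)]
    · rw [if_neg hx, if_neg (fun hc => hx (e.2 hc))]
  have h1 : ∀ x : ZMod q, Dl d s (cut q N u) x =
      if (x.val : ℤ) ∈ IC N (lft s) then GCu u (lft s) (x.val : ℤ) else 0 := by
    intro x
    rw [Dl_val hN d s (cut q N u) (cutz N u) (fun y hy => if_neg hy) hcut x]
    split_ifs with hx
    · unfold GCu
      refine Finset.prod_congr rfl fun I _ => ?_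
      unfold IC at hx
      rw [Finset.mem_filter] at hx
      exact if_pos (hx.2 I)
    · unfold IC at hx
      rw [Finset.mem_filter, not_and_or] at hx
      rcases hx with hx | hx
      · refine Finset.prod_eq_zero (Finset.mem_univ ∅) ?_
        have h2 : sI (lft s) ∅ = 0 := Finset.sum_empty
        rw [h2, add_zero]
        refine if_neg fun hc => hx ?_
        rw [Finset.mem_Icc]
        exact hc
      · push Not at hx
        obtain ⟨I, hI⟩ := hx
        refine Finset.prod_eq_zero (Finset.mem_univ I) ?_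
        refine if_neg fun hc => ?_
        have := hI hc.1
        omega
  have h2 : ∀ n : ℤ, ZMod.stdAddChar (((n : ℤ) : ZMod q) * ξ) =
      ee ((n : ℝ) * ((ξ.val : ℝ) / q)) := by
    intro n
    have e1 : ((n : ℤ) : ZMod q) * ξ = ((n * (ξ.val : ℤ) : ℤ) : ZMod q) := by
      push_cast
      rw [ZMod.natCast_zmod_val]
    rw [e1, ZMod.stdAddChar_coe]
    unfold ee
    congr 1
    push_cast
    ring
  unfold hat hsu
  have h3 : ∑ x : ZMod q, ((Dl d s (cut q N u) x : ℝ) : ℂ) * ZMod.stdAddChar (x * ξ) =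
      ∑ x ∈ Finset.univ.filter (fun x : ZMod q => (x.val : ℤ) ∈ IC N (lft s)),
        ((GCu u (lft s) (x.val : ℤ) : ℝ) : ℂ) * ee (((x.val : ℤ) : ℝ) * ((ξ.val : ℝ) / q)) := by
    rw [Finset.sum_filter]
    refine Finset.sum_congr rfl fun x _ => ?_
    rw [h1 x, ← h2, Int.cast_natCast, ZMod.natCast_zmod_val]
    split_ifs
    · rfl
    · rw [Complex.ofReal_zero, zero_mul]
  rw [h3]
  refine Finset.sum_bij (fun x _ => (x.val : ℤ)) ?_ ?_ ?_ ?_
  · intro x hx
    exact (Finset.mem_filter.1 hx).2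
  · intro x _ y _ hxy
    exact ZMod.val_injective q (by exact_mod_cast hxy)
  · intro n hn
    have hn1 : 1 ≤ n ∧ n ≤ (N : ℤ) := by
      unfold IC at hn
      rw [Finset.mem_filter, Finset.mem_Icc] at hn
      exact hn.1
    have hn2 : (((n.toNat : ZMod q).val : ℕ) : ℤ) = n := by
      rw [ZMod.val_natCast, Nat.mod_eq_of_lt (by omega)]
      omega
    refine ⟨(n.toNat : ZMod q), ?_, hn2⟩
    rw [Finset.mem_filter, hn2]
    exact ⟨Finset.mem_univ _, hn⟩
  · intro x _
    rfl

end Pool.Agent.H66.GUS
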