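import Pool.Agent.H66.GUS.Targets
import Pool.Agent.H79.GUA.HO

/-!
Module HO of the project GUS, chapter A (affine trick), on `MP_c59857_nt`.
-/

set_option autoImplicit false

open Finset Filter Topology

namespace Pool.Agent.H66.GUS

open Pool.Agent.H31.DP
open Pool.Agent.H31.DPD
open Pool.Agent.H66.GUA
open Pool.Agent.H24.T2 (Pset box cub mem_box box_card)
open Pool.Agent.H79.GUA (card_mul_le' sm_pt)

theorem pf_HOu (hCT : T_CTu) (hCU : StatementCU) : T_HOu := by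
  classical
  intro d l h Ψ q _ N M Q X B A τ R hΨ hQ hA hB hX
  set n := nf d l with hn
  set D := 2 ^ n with hD
  set W : ℝ := (2 * X + 1) ^ (D - (n + 1)) with hW
  set L : ℝ := ((2 * d + 1) * (M : ℝ) + B) ^ D with hL
  have hL0 : 0 ≤ L := by positivity
  have hW0 : 0 ≤ W := by positivity
  have hD1 : 1 ≤ D := Nat.one_le_two_pow
  have hD' : D - 1 + 1 = D := Nat.sub_add_cancel hD1
  set E : (Fin d → ℤ) → (Fin d → ℤ) → (Fin d → ZMod q) → ℤ → ℝ := fun u c b s₀ =>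
    ‖∑ p ∈ As A R Q u c b, ee (s₀ * phs τ Q u c (p : ℤ)) *
      ((CAu (uh h Ψ p) M (cns s₀ (sm p (pt Q u c (p : ℤ)))) : ℝ) : ℂ)‖ with hE
  -- the von Neumann inequality for each term
  have hterm : ∀ u ∈ box d (M / Q), ∀ c ∈ box d (3 * N), ∀ b : Fin d → ZMod q,
      ∀ s₀ ∈ mul Q M, E u c b s₀ ^ D ≤
        L * W * (Uc X n ((As A R Q u c b).map Nat.castEmbedding)
          (fun x => ee (s₀ * phs τ Q u c x))).re := by
    intro u hu c _ b s₀ _
    have hsub : As A R Q u c b ⊆ A := Finset.filter_subset _ _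
    have h1 := hCT d l h Ψ (As A R Q u c b) B X M Q s₀ u c (fun x => ee (s₀ * phs τ Q u c x)) hΨ
      (fun p hp i => hB p (hsub hp) i) (fun p hp p' hp' => hX p (hsub hp) p' (hsub hp')) ?_
    · have h2 : ∑ p ∈ As A R Q u c b, ee (s₀ * phs τ Q u c (p : ℤ)) *
          ((CAu (uh h Ψ p) M (cns s₀ (fun i => (Q : ℤ) * u i + p * c i)) : ℝ) : ℂ) =
          ∑ p ∈ As A R Q u c b, ee (s₀ * phs τ Q u c (p : ℤ)) *
          ((CAu (uh h Ψ p) M (cns s₀ (sm p (pt Q u c (p : ℤ)))) : ℝ) : ℂ) := by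
        refine Finset.sum_congr rfl fun p hp => ?_
        rw [sm_pt Q p u c (hA p (hsub hp)).1 (hA p (hsub hp)).2]
      rw [h2] at h1
      exact h1
    · intro i
      rw [mem_box] at hu
      rw [abs_mul, abs_of_nonneg (Nat.cast_nonneg Q : (0 : ℤ) ≤ Q)]
      calc (Q : ℤ) * |u i| ≤ Q * ((M / Q : ℕ) : ℤ) :=
            mul_le_mul_of_nonneg_left (hu i) (Nat.cast_nonneg Q)
        _ ≤ M := by exact_mod_cast Nat.mul_div_le M Q
  -- the sum over `s₀`
  have hsum : ∀ u ∈ box d (M / Q), ∀ c ∈ box d (3 * N), ∀ b : Fin d → ZMod q,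
      ∑ s₀ ∈ mul Q M, E u c b s₀ ^ D ≤
        L * W * ∑ t ∈ box n X, ∑ x ∈ cub n ((As A R Q u c b).map Nat.castEmbedding) t,
          ‖∑ s₀ ∈ mul Q M, ee (s₀ * dl n t (phs τ Q u c) x)‖ := by
    intro u hu c hc b
    refine (Finset.sum_le_sum fun s₀ hs => hterm u hu c hc b s₀ hs).trans ?_
    rw [← Finset.mul_sum]
    refine mul_le_mul_of_nonneg_left ?_ (mul_nonneg hL0 hW0)
    rw [← Complex.re_sum]
    have h1 : ∀ s₀ : ℤ, Uc X n ((As A R Q u c b).map Nat.castEmbedding)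
        (fun x => ee (s₀ * phs τ Q u c x)) = ∑ t ∈ box n X,
          ∑ x ∈ cub n ((As A R Q u c b).map Nat.castEmbedding) t,
            ee (s₀ * dl n t (phs τ Q u c) x) := by
      intro s₀
      exact hCU X n _ (phs τ Q u c) (s₀ : ℝ)
    rw [Finset.sum_congr rfl fun s₀ _ => h1 s₀, Finset.sum_comm]
    rw [Finset.sum_congr rfl fun t _ => Finset.sum_comm]
    exact (Complex.re_le_norm _).trans ((norm_sum_le _ _).trans
      (Finset.sum_le_sum fun t _ => norm_sum_le _ _))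
  -- the total
  set S : Finset ((((Fin d → ℤ) × (Fin d → ℤ)) × (Fin d → ZMod q)) × ℤ) :=
    ((box d (M / Q) ×ˢ box d (3 * N)) ×ˢ (Finset.univ : Finset (Fin d → ZMod q))) ×ˢ mul Q M
    with hS
  have hOm : Om2u (uh h Ψ) N M Q A R τ = ∑ y ∈ S, E y.1.1.1 y.1.1.2 y.1.2 y.2 := by
    rw [hS, Finset.sum_product, Finset.sum_product, Finset.sum_product]
    rfl
  have hSD : ∑ y ∈ S, E y.1.1.1 y.1.1.2 y.1.2 y.2 ^ D ≤ L * W * Om3 n N M Q X A R τ := by
    rw [hS, Finset.sum_product, Finset.sum_product, Finset.sum_product]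
    unfold Om3
    rw [Finset.mul_sum]
    refine Finset.sum_le_sum fun u hu => ?_
    rw [Finset.mul_sum]
    refine Finset.sum_le_sum fun c hc => ?_
    rw [Finset.mul_sum]
    refine Finset.sum_le_sum fun b _ => ?_
    exact hsum u hu c hc b
  have hcard : (S.card : ℝ) ≤
      (2 * ((M / Q : ℕ) : ℝ) + 1) ^ (d + 1) * (6 * (N : ℝ) + 1) ^ d * (q : ℝ) ^ d := by
    rw [hS, Finset.card_product, Finset.card_product, Finset.card_product, Finset.card_univ]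
    push_cast
    rw [box_card, box_card, Fintype.card_pi, Finset.prod_const, ZMod.card, Finset.card_univ,
      Fintype.card_fin]
    push_cast
    have h1 := card_mul_le' Q M hQ
    have h2 : (0 : ℝ) ≤ (2 * ((M / Q : ℕ) : ℝ) + 1) ^ d * (2 * (3 * (N : ℝ)) + 1) ^ d *
        (q : ℝ) ^ d := by positivity
    calc (2 * ((M / Q : ℕ) : ℝ) + 1) ^ d * (2 * (3 * (N : ℝ)) + 1) ^ d * (q : ℝ) ^ d *
          ((mul Q M).card : ℝ)
        ≤ (2 * ((M / Q : ℕ) : ℝ) + 1) ^ d * (2 * (3 * (N : ℝ)) + 1) ^ d * (q : ℝ) ^ d *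
          (2 * ((M / Q : ℕ) : ℝ) + 1) := mul_le_mul_of_nonneg_left h1 h2
      _ = _ := by ring
  have hE0 : ∀ y ∈ S, 0 ≤ E y.1.1.1 y.1.1.2 y.1.2 y.2 := fun _ _ => norm_nonneg _
  have hmean := pow_sum_le_card_mul_sum_pow (s := S)
    (f := fun y => E y.1.1.1 y.1.1.2 y.1.2 y.2) hE0 (D - 1)
  rw [hD'] at hmean
  have hsum0 : 0 ≤ ∑ y ∈ S, E y.1.1.1 y.1.1.2 y.1.2 y.2 ^ D :=
    Finset.sum_nonneg fun y hy => pow_nonneg (hE0 y hy) _
  rw [hOm]
  refine hmean.trans ?_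
  calc (S.card : ℝ) ^ (D - 1) * ∑ y ∈ S, E y.1.1.1 y.1.1.2 y.1.2 y.2 ^ D
      ≤ ((2 * ((M / Q : ℕ) : ℝ) + 1) ^ (d + 1) * (6 * (N : ℝ) + 1) ^ d * (q : ℝ) ^ d) ^ (D - 1) *
          (L * W * Om3 n N M Q X A R τ) :=
        mul_le_mul (pow_le_pow_left₀ (Nat.cast_nonneg _) hcard _) hSD hsum0 (by positivity)
    _ = _ := by ring

end Pool.Agent.H66.GUS
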