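import Pool.Agent.H66.GUS.Targets
import Pool.Agent.H77.DP.LB

/-!
[LA] The comparison for one prime and one cube (project GUS on `MP_c59857_nt`, board
`gua_modules`).
-/

set_option autoImplicit false

open Finset Filter Topology

namespace Pool.Agent.H66.GUS

open Pool.Agent.H31.DP
open Pool.Agent.H31.DPD
open Pool.Agent.H66.GUA

open Classical in
/-- the product over the cube, cut to the cubes in `[1, M]` -/
noncomputable def aa {d : ℕ} (u : ℤ → ℝ) (M : ℕ) (z : Fin d → ℤ) (y : ℤ) : ℝ :=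
  if y ∈ IC M z then GCu u z y else 0

lemma IC_sub {d : ℕ} (M : ℕ) (z : Fin d → ℤ) : IC M z ⊆ Finset.Icc (1 : ℤ) M := by
  unfold IC
  exact Finset.filter_subset _ _

lemma aa_sum (hCC : T_CCu) {d : ℕ} (u : ℤ → ℝ) (M : ℕ) (z : Fin d → ℤ) (s₀ : ℤ)
    (b : ℤ → ℝ) :
    ∑ y ∈ Finset.Icc (1 : ℤ) M, b y * (aa u M z y * aa u M z (y + s₀)) =
      ∑ y ∈ IC M (cns s₀ z), b y * GCu u (cns s₀ z) y := by
  symm
  refine (Finset.sum_congr rfl fun y hy => ?_).trans (Finset.sum_subset (IC_sub M (cns s₀ z)) ?_)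
  · obtain ⟨h1, h2⟩ := hCC d u M s₀ z y
    obtain ⟨h3, h4⟩ := h1.1 hy
    unfold aa
    rw [if_pos h3, if_pos h4, h2]
  · intro y _ hy
    obtain ⟨h1, -⟩ := hCC d u M s₀ z y
    unfold aa
    by_cases h3 : y ∈ IC M z
    · have h4 : y + s₀ ∉ IC M z := fun h4 => hy (h1.2 ⟨h3, h4⟩)
      rw [if_neg h4, mul_zero, mul_zero]
    · rw [if_neg h3, zero_mul, mul_zero]

theorem pf_LAu (hCC : T_CCu) (hDL : T_DLu) (hSR : T_SR) (hKR : T_KR) : T_LAu := by
  intro d u p Q M s θ hp0 hpQ hQ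
  obtain ⟨z, hz⟩ : ∃ z, z = sm p s := ⟨_, rfl⟩
  have ha0 : ∀ y, y ∉ Finset.Icc (1 : ℤ) M → aa u M z y = 0 := by
    intro y hy
    unfold aa
    rw [if_neg fun h1 => hy (IC_sub M z h1)]
  have h1 : ∑ y ∈ (IC M z).filter (fun y => (p : ℤ) ∣ y),
      ((GCu u z y : ℝ) : ℂ) * ee (y * (θ / p)) =
      ∑ y ∈ (Finset.Icc (1 : ℤ) M).filter (fun y => (p : ℤ) ∣ y),
        ((aa u M z y : ℝ) : ℂ) * ee (y * (θ / p)) := by
    refine (Finset.sum_congr rfl fun y hy => ?_).trans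
      (Finset.sum_subset (Finset.filter_subset_filter _ (IC_sub M z)) ?_)
    · unfold aa
      rw [if_pos (Finset.mem_filter.1 hy).1]
    · intro y hy hy'
      have h3 : y ∉ IC M z := fun h3 =>
        hy' (Finset.mem_filter.2 ⟨h3, (Finset.mem_filter.1 hy).2⟩)
      unfold aa
      rw [if_neg h3, Complex.ofReal_zero, zero_mul]
  have h2 := hDL d u p M s θ hp0
  rw [← hz, h1] at h2
  have h3 := hSR (aa u M z) M p θ hp0 ha0
  rw [h2] at h3
  -- the correlations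
  have h4 : ∀ s₀ : ℤ, ∑ y ∈ Finset.Icc (1 : ℤ) M, aa u M z y * aa u M z (y + s₀) =
      CAu u M (cns s₀ z) := by
    intro s₀
    have := aa_sum hCC u M z s₀ fun _ => 1
    simp only [one_mul] at this
    exact this
  have h5 : ∀ s₀ : ℤ, ∑ y ∈ Finset.Icc (1 : ℤ) M, (1 + bal p y) *
      (aa u M z y * aa u M z (y + s₀)) =
      CAu u M (cns s₀ z) + TTu u p M (cns s₀ z) := by
    intro s₀
    rw [aa_sum hCC u M z s₀ fun y => 1 + bal p y]
    unfold CAu TTu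
    rw [← Finset.sum_add_distrib]
    refine Finset.sum_congr rfl fun y _ => ?_
    ring
  have h6 : ∑ s₀ ∈ mul p M, ee (s₀ * (θ / p)) *
      ((∑ y ∈ Finset.Icc (1 : ℤ) M, (1 + bal p y) *
        (aa u M z y * aa u M z (y + s₀)) : ℝ) : ℂ) =
      RZu u p M z (θ / p) +
        ∑ s₀ ∈ mul p M, ee (s₀ * (θ / p)) * ((TTu u p M (cns s₀ z) : ℝ) : ℂ) := by
    unfold RZu
    rw [← Finset.sum_add_distrib]
    refine Finset.sum_congr rfl fun s₀ _ => ?_
    rw [h5 s₀, Complex.ofReal_add, mul_add]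
  have h7 : (∑ s₀ ∈ mul p M, ee (s₀ * (θ / p)) * ((TTu u p M (cns s₀ z) : ℝ) : ℂ)).re ≤
      TZu u p M z := by
    refine (Complex.re_le_norm _).trans ((norm_sum_le _ _).trans ?_)
    unfold TZu
    refine Finset.sum_le_sum fun s₀ _ => ?_
    rw [norm_mul, Pool.Agent.H77.DP.norm_ee, one_mul, Complex.norm_real, Real.norm_eq_abs]
  have h8 := hKR (aa u M z) M p Q θ hp0 hQ hpQ ha0
  simp only [h4] at h8
  have h9 : (p : ℝ) * (RZu u p M z (θ / p)).re ≤ Q * (RZu u Q M z (θ / p)).re := h8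
  rw [h3, h6, Complex.add_re, mul_add, ← hz]
  have hp1 : (0 : ℝ) ≤ p := by positivity
  have h10 := mul_le_mul_of_nonneg_left h7 hp1
  linarith

end Pool.Agent.H66.GUS
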