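import Pool.Agent.H66.GUS.Targets
import Pool.Agent.H26.GUA.PR

/-!
Row PR of the chapter A2/A3 of the project GUS on `MP_c59857_nt`.
-/

set_option autoImplicit false

open Finset Filter Topology

namespace Pool.Agent.H66.GUS

open Pool.Agent.H91.LF (lz Bdd Mean sqw par)
open Pool.Agent.H24.T2 (Pset box cub)
open Pool.Agent.H31.DP
open Pool.Agent.H31.DPD
open Pool.Agent.H66.GUA
open Pool.Agent.H26.GUA (ind_true ind_false sI_lin mem_IC)

/-- Expanding a product of differences. -/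
theorem prod_sub_exp {ι : Type} [Fintype ι] [DecidableEq ι] (f g : ι → ℝ) :
    ∏ i, (f i - g i) = ∑ S : Finset ι, (-1) ^ (Fintype.card ι - S.card) *
      ∏ i, (if i ∈ S then f i else g i) := by
  have h1 : ∏ i, (f i - g i) = ∏ i, (f i + (-1) * g i) :=
    Finset.prod_congr rfl fun i _ => by ring
  rw [h1, Finset.prod_add, Finset.powerset_univ]
  refine Finset.sum_congr rfl fun S _ => ?_
  rw [Finset.prod_mul_distrib, Finset.prod_const, Finset.prod_ite,
    Finset.card_sdiff_of_subset (Finset.subset_univ S), Finset.card_univ]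
  have h2 : Finset.univ.filter (fun i => i ∈ S) = S := by ext i; simp
  have h3 : Finset.univ.filter (fun i => i ∉ S) = Finset.univ \ S := by ext i; simp
  rw [h2, h3]
  ring

theorem sign_mul {n a b : ℕ} (ha : a ≤ n) (hb : b ≤ n) :
    (-1 : ℝ) ^ (n - a) * (-1) ^ (n - b) = (-1) ^ (a + b) := by
  have h1 : (-1 : ℝ) ^ (n - a) * (-1) ^ (n - b) * ((-1) ^ (a + b)) = 1 := by
    rw [← pow_add, ← pow_add]
    have : n - a + (n - b) + (a + b) = 2 * n := by omega
    rw [this, pow_mul]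
    norm_num
  have h2 : ((-1 : ℝ) ^ (a + b)) * (-1) ^ (a + b) = 1 := by
    rw [← pow_add, ← two_mul, pow_mul]
    norm_num
  calc (-1 : ℝ) ^ (n - a) * (-1) ^ (n - b) = (-1 : ℝ) ^ (n - a) * (-1) ^ (n - b) *
        (((-1 : ℝ) ^ (a + b)) * (-1) ^ (a + b)) := by rw [h2, mul_one]
    _ = ((-1 : ℝ) ^ (n - a) * (-1) ^ (n - b) * ((-1) ^ (a + b))) * (-1) ^ (a + b) := by ring
    _ = (-1) ^ (a + b) := by rw [h1, one_mul]

theorem GCu_uh {l d : ℕ} (h : Fin l → ℕ) (Ψ : ℤ → ℝ) (p : ℕ) (z : Fin d → ℤ) (y : ℤ) :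
    (2 : ℝ) ^ (2 ^ d) * GCu (uh h Ψ p) z y = ∑ S : Finset (Finset (Fin d)),
      (-1) ^ (2 ^ d - S.card) *
        ∏ J, (if J ∈ S then FF h p (y + sI z J) else Ψ (y + sI z J)) := by
  have h1 : (2 : ℝ) ^ (2 ^ d) * GCu (uh h Ψ p) z y =
      ∏ J : Finset (Fin d), (FF h p (y + sI z J) - Ψ (y + sI z J)) := by
    unfold GCu uh
    rw [Finset.prod_div_distrib, Finset.prod_const, Finset.card_univ, Fintype.card_finset,
      Fintype.card_fin]
    field_simp
  rw [h1, prod_sub_exp, Fintype.card_finset, Fintype.card_fin]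

theorem pf_PRu (hCC : T_CCu) : T_PRu := by
  intro d l h Ψ p B M Q s₀ u c hB
  set z : Fin d → ℤ := fun i => Q * u i + p * c i with hz
  have hv : ∀ J, sI z J = Q * sI u J + p * sI c J := fun J => sI_lin Q p u c J
  have hnone : ∀ (S₀ S₁ : Finset (Finset (Fin d))) (y : ℤ) (J : Finset (Fin d)),
      GGu Ψ M B Q s₀ u S₀ S₁ (J, (none : Option (Fin l))) (y + p * vv h c (J, none)) =
        ind ((1 ≤ y + sI z J ∧ y + sI z J ≤ M) ∧
          (1 ≤ y + s₀ + sI z J ∧ y + s₀ + sI z J ≤ M)) *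
        ((if J ∈ S₀ then 1 else Ψ (y + sI z J)) *
          (if J ∈ S₁ then 1 else Ψ (y + s₀ + sI z J))) := by
    intro S₀ S₁ y J
    have e1 : y + p * (sI c J + 0) + Q * sI u J = y + sI z J := by rw [hv]; ring
    have e2 : y + sI z J + s₀ = y + s₀ + sI z J := by ring
    simp only [GGu, vv]
    rw [e1, e2]
  have hsome : ∀ (S₀ S₁ : Finset (Finset (Fin d))) (y : ℤ) (J : Finset (Fin d)) (i : Fin l),
      GGu Ψ M B Q s₀ u S₀ S₁ (J, some i) (y + p * vv h c (J, some i)) =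
        ind (1 ≤ y + sI z J + p * h i ∧ y + sI z J + p * h i ≤ (M : ℤ) + B) *
          ((if J ∈ S₀ then lz (y + sI z J + p * h i) else 1) *
            (if J ∈ S₁ then lz (y + s₀ + sI z J + p * h i) else 1)) := by
    intro S₀ S₁ y J i
    have e1 : y + p * (sI c J + (h i : ℤ)) + Q * sI u J = y + sI z J + p * h i := by
      rw [hv]; ring
    have e2 : y + sI z J + p * h i + s₀ = y + s₀ + sI z J + p * h i := by ring
    simp only [GGu, vv]
    rw [e1, e2]
  have hsub : IC M (cns s₀ z) ⊆ Finset.Icc (1 : ℤ) M := Finset.filter_subset _ _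
  -- the product at one point
  have hpt : ∀ (S₀ S₁ : Finset (Finset (Fin d))), ∀ y ∈ IC M (cns s₀ z),
      ∏ x : Finset (Fin d) × Option (Fin l), GGu Ψ M B Q s₀ u S₀ S₁ x (y + p * vv h c x) =
        (∏ J, (if J ∈ S₀ then FF h p (y + sI z J) else Ψ (y + sI z J))) *
          ∏ J, (if J ∈ S₁ then FF h p (y + s₀ + sI z J) else Ψ (y + s₀ + sI z J)) := by
    intro S₀ S₁ y hy
    obtain ⟨hy1, hy2⟩ := (hCC d (uh h Ψ p) M s₀ z y).1.1 hy
    rw [mem_IC] at hy1 hy2
    rw [Fintype.prod_prod_type, ← Finset.prod_mul_distrib]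
    refine Finset.prod_congr rfl ?_
    intro J _
    rw [Fintype.prod_option, hnone, ind_true ⟨hy1.2 J, hy2.2 J⟩, one_mul]
    have h1 : ∏ i : Fin l, GGu Ψ M B Q s₀ u S₀ S₁ (J, some i) (y + p * vv h c (J, some i)) =
        (if J ∈ S₀ then FF h p (y + sI z J) else 1) *
          (if J ∈ S₁ then FF h p (y + s₀ + sI z J) else 1) := by
      have h2 : ∀ i : Fin l, GGu Ψ M B Q s₀ u S₀ S₁ (J, some i) (y + p * vv h c (J, some i)) =
          (if J ∈ S₀ then lz (y + sI z J + p * h i) else 1) *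
            (if J ∈ S₁ then lz (y + s₀ + sI z J + p * h i) else 1) := by
        intro i
        rw [hsome]
        have hb : ((p * h i : ℕ) : ℤ) ≤ (B : ℤ) := by exact_mod_cast hB i
        push_cast at hb
        have h0 : (0 : ℤ) ≤ (p : ℤ) * (h i : ℤ) := by positivity
        rw [ind_true ⟨by linarith [(hy1.2 J).1], by linarith [(hy1.2 J).2]⟩, one_mul]
      rw [Finset.prod_congr rfl fun i _ => h2 i, Finset.prod_mul_distrib]
      unfold FF
      split_ifs <;> simp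
    rw [h1]
    split_ifs <;> ring
  have hzero : ∀ (S₀ S₁ : Finset (Finset (Fin d))), ∀ y ∈ Finset.Icc (1 : ℤ) M,
      y ∉ IC M (cns s₀ z) →
      ∏ x : Finset (Fin d) × Option (Fin l), GGu Ψ M B Q s₀ u S₀ S₁ x (y + p * vv h c x) = 0 := by
    intro S₀ S₁ y hy hny
    have : ∃ J : Finset (Fin d), ¬ ((1 ≤ y + sI z J ∧ y + sI z J ≤ (M : ℤ)) ∧
          (1 ≤ y + s₀ + sI z J ∧ y + s₀ + sI z J ≤ (M : ℤ))) := by
      by_contra hcon
      push Not at hcon
      apply hny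
      rw [(hCC d (uh h Ψ p) M s₀ z y).1, mem_IC, mem_IC]
      rw [Finset.mem_Icc] at hy
      have h0 := (hcon ∅).2
      simp only [sI, Finset.sum_empty, add_zero] at h0
      exact ⟨⟨hy, fun J => (hcon J).1⟩, ⟨h0, fun J => (hcon J).2⟩⟩
    obtain ⟨J, hJ⟩ := this
    refine Finset.prod_eq_zero (Finset.mem_univ (J, (none : Option (Fin l)))) ?_
    rw [hnone, ind_false hJ, zero_mul]
  -- assembling
  have hL : (2 : ℝ) ^ (2 * 2 ^ d) * CAu (uh h Ψ p) M (cns s₀ z) =
      ∑ y ∈ IC M (cns s₀ z), ∑ S₀ : Finset (Finset (Fin d)), ∑ S₁ : Finset (Finset (Fin d)),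
        (-1) ^ (S₀.card + S₁.card) *
          ((∏ J, (if J ∈ S₀ then FF h p (y + sI z J) else Ψ (y + sI z J))) *
            ∏ J, (if J ∈ S₁ then FF h p (y + s₀ + sI z J) else Ψ (y + s₀ + sI z J))) := by
    unfold CAu
    rw [Finset.mul_sum]
    refine Finset.sum_congr rfl fun y _ => ?_
    rw [(hCC d (uh h Ψ p) M s₀ z y).2]
    have e : (2 : ℝ) ^ (2 * 2 ^ d) * (GCu (uh h Ψ p) z y * GCu (uh h Ψ p) z (y + s₀)) =
        ((2 : ℝ) ^ (2 ^ d) * GCu (uh h Ψ p) z y) *
          ((2 : ℝ) ^ (2 ^ d) * GCu (uh h Ψ p) z (y + s₀)) := by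
      rw [two_mul, pow_add]
      ring
    rw [e, GCu_uh, GCu_uh, Finset.sum_mul_sum]
    refine Finset.sum_congr rfl fun S₀ _ => Finset.sum_congr rfl fun S₁ _ => ?_
    have hc : ∀ S : Finset (Finset (Fin d)), S.card ≤ 2 ^ d := by
      intro S
      have := Finset.card_le_univ S
      rwa [Fintype.card_finset, Fintype.card_fin] at this
    rw [← sign_mul (hc S₀) (hc S₁)]
    ring
  rw [hL, Finset.sum_comm]
  refine Finset.sum_congr rfl fun S₀ _ => ?_
  rw [Finset.sum_comm]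
  refine Finset.sum_congr rfl fun S₁ _ => ?_
  rw [← Finset.mul_sum]
  congr 1
  rw [← Finset.sum_subset hsub (hzero S₀ S₁)]
  exact Finset.sum_congr rfl fun y hy => (hpt S₀ S₁ y hy).symm

end Pool.Agent.H66.GUS
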