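import Pool.Agent.H66.GUS.Targets
import Pool.Agent.H77.DP.LB

/-!
[TP] The balanced correlations are small in the mean (project GUS on `MP_c59857_nt`).
-/

set_option autoImplicit false

open Finset Filter Topology

namespace Pool.Agent.H66.GUS

open Pool.Agent.H31.DP
open Pool.Agent.H31.DPD
open Pool.Agent.H66.GUA

lemma sum_mulc_succ (d p M : ℕ) (f : (Fin (d + 1) → ℤ) → ℝ) :
    ∑ z ∈ mulc d p M, ∑ s₀ ∈ mul p M, f (cns s₀ z) = ∑ s ∈ mulc (d + 1) p M, f s := by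
  rw [← Finset.sum_product']
  refine Finset.sum_bij' (fun x _ => cns x.2 x.1) (fun s _ => (Fin.tail s, s 0)) ?_ ?_ ?_ ?_ ?_
  · intro x hx
    obtain ⟨h1, h2⟩ := Finset.mem_product.1 hx
    unfold mulc at h1 ⊢
    rw [Fintype.mem_piFinset] at h1 ⊢
    intro i
    refine Fin.cases ?_ (fun j => ?_) i
    · exact h2
    · exact h1 j
  · intro s hs
    unfold mulc at hs
    rw [Fintype.mem_piFinset] at hs
    rw [Finset.mem_product]
    refine ⟨?_, hs 0⟩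
    unfold mulc
    rw [Fintype.mem_piFinset]
    exact fun j => hs j.succ
  · intro x _
    unfold cns
    rw [Fin.tail_cons, Fin.cons_zero]
  · intro s _
    unfold cns
    exact Fin.cons_self_tail s
  · intro x _
    rfl

theorem pf_TPu : T_TPu := by
  intro d u p M hp hpM
  have h1 : ∑ z ∈ mulc d p M, TZu u p M z = ∑ s ∈ mulc (d + 1) p M, |TTu u p M s| :=
    sum_mulc_succ d p M fun s => |TTu u p M s|
  rw [h1]
  refine (le_abs_self _).trans (Real.abs_le_sqrt ?_)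
  have h2 : (∑ s ∈ mulc (d + 1) p M, |TTu u p M s|) ^ 2 ≤
      ((mulc (d + 1) p M).card : ℝ) * ∑ s ∈ mulc (d + 1) p M, |TTu u p M s| ^ 2 :=
    sq_sum_le_card_mul_sum_sq
  have h3 : ((mulc (d + 1) p M).card : ℝ) = ((mul p M).card : ℝ) ^ (d + 1) := by
    unfold mulc
    rw [Fintype.card_piFinset_const]
    push_cast
    rfl
  have h4 : (p : ℝ) ^ (d + 1) * ((mul p M).card : ℝ) ^ (d + 1) ≤ (3 * (M : ℝ)) ^ (d + 1) := by
    rw [← mul_pow]
    exact pow_le_pow_left₀ (by positivity) (Pool.Agent.H77.DP.card_mul_le p M hp hpM) _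
  have h5 : DDu (d + 1) u p M = (p : ℝ) ^ (d + 1) * ∑ s ∈ mulc (d + 1) p M, |TTu u p M s| ^ 2 := by
    unfold DDu
    simp only [sq_abs]
  have h6 : (0 : ℝ) ≤ (p : ℝ) ^ (d + 1) * ∑ s ∈ mulc (d + 1) p M, |TTu u p M s| ^ 2 := by
    positivity
  calc ((p : ℝ) ^ (d + 1) * ∑ s ∈ mulc (d + 1) p M, |TTu u p M s|) ^ 2
      = ((p : ℝ) ^ (d + 1)) ^ 2 * (∑ s ∈ mulc (d + 1) p M, |TTu u p M s|) ^ 2 := by rw [mul_pow]
    _ ≤ ((p : ℝ) ^ (d + 1)) ^ 2 * (((mulc (d + 1) p M).card : ℝ) *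
        ∑ s ∈ mulc (d + 1) p M, |TTu u p M s| ^ 2) :=
        mul_le_mul_of_nonneg_left h2 (by positivity)
    _ = ((p : ℝ) ^ (d + 1) * ((mul p M).card : ℝ) ^ (d + 1)) *
        ((p : ℝ) ^ (d + 1) * ∑ s ∈ mulc (d + 1) p M, |TTu u p M s| ^ 2) := by
        rw [h3]
        ring
    _ ≤ (3 * (M : ℝ)) ^ (d + 1) *
        ((p : ℝ) ^ (d + 1) * ∑ s ∈ mulc (d + 1) p M, |TTu u p M s| ^ 2) :=
        mul_le_mul_of_nonneg_right h4 h6
    _ = (3 * (M : ℝ)) ^ (d + 1) * DDu (d + 1) u p M := by rw [h5]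

end Pool.Agent.H66.GUS
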