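import Pool.Agent.H66.GUS.CC
import Pool.Agent.H66.GUS.DL
import Pool.Agent.H66.GUS.LA
import Pool.Agent.H66.GUS.TP
import Pool.Agent.H66.GUS.CN
import Pool.Agent.H66.GUS.P1
import Pool.Agent.H66.GUS.SW
import Pool.Agent.H66.GUS.PR
import Pool.Agent.H66.GUS.CT
import Pool.Agent.H66.GUS.HO
import Pool.Agent.H66.GUS.GI
import Pool.Agent.H66.GUS.GA
import Pool.Agent.H79.GUA.AF
import Pool.Agent.H18.GUA.DS
import Pool.Agent.H83.GUA.RH
import Pool.Agent.H46.GUA.GE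
import Pool.Agent.H90.GUA.GZ
import Pool.Agent.H88.GU.KN
import Pool.Agent.H42.GUA.KR
import Pool.Agent.H42.GUA.SR
import Pool.Agent.H74.GUA.PH
import Pool.Agent.H31.DP.All
import Pool.Agent.H31.DPD.All

/-!
Assembly of the chapter A2/A3 of the project GUS on `MP_c59857_nt`.
-/

set_option autoImplicit false

namespace Pool.Agent.H66.GUS

open Pool.Agent.H66.GUA

theorem x_KR : T_KR := Pool.Agent.H42.GUA.pf_KR Pool.Agent.H31.DP.All.x_KA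
  Pool.Agent.H31.DP.All.x_KB

theorem x_LAu : T_LAu := pf_LAu pf_CCu pf_DLu Pool.Agent.H42.GUA.pf_SR x_KR

theorem x_P1u : T_P1u := pf_P1u x_LAu pf_CNu pf_TPu pf_EVu

theorem x_SWu : T_SWu := pf_SWu x_P1u Pool.Agent.H79.GUA.pf_AF pf_EVu

theorem x_GZ : T_GZ := Pool.Agent.H90.GUA.pf_GZ Pool.Agent.H31.DP.All.x_GV

theorem x_CTu : T_CTu := pf_CTu (pf_PRu pf_CCu) x_GZ

theorem x_HOu : T_HOu := pf_HOu x_CTu Pool.Agent.H31.DP.All.x_CU

theorem x_PH : T_PH := Pool.Agent.H74.GUA.pf_PH Pool.Agent.H18.GUA.pf_DS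
  (Pool.Agent.H83.GUA.pf_RH Pool.Agent.H18.GUA.pf_DS) Pool.Agent.H46.GUA.pf_GE

theorem x_GBu : T_GBu := pf_GBu x_SWu x_HOu x_PH

theorem x_KN : T_KN := Pool.Agent.H88.GUA.pf_KN Pool.Agent.H18.GUA.pf_DS
  Pool.Agent.H31.DPD.All.x_ND

theorem x_GAS : Pool.Agent.H28.GS.T_GAS := pf_GAS x_GBu pf_GIu x_KN

end Pool.Agent.H66.GUS
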