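import Pool.Agent.H66.GUA.Targets2

/-!
Definitions for the chapter A2/A3 (affine trick) of the project GUS on `MP_c59857_nt`: the
chapter of `Pool.Agent.H66.GUA` for an arbitrary family of functions.
-/

set_option autoImplicit false

open Finset Filter Topology

namespace Pool.Agent.H66.GUS

open Pool.Agent.H91.LF (lz Bdd Mean sqw par)
open Pool.Agent.H24.T2 (Pset box cub)
open Pool.Agent.H31.DP
open Pool.Agent.H31.DPD
open Pool.Agent.H66.GUA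

/-- The product of `u` over the vertices of the cube. -/
noncomputable def GCu {d : ℕ} (u : ℤ → ℝ) (s : Fin d → ℤ) (y : ℤ) : ℝ :=
  ∏ I : Finset (Fin d), u (y + sI s I)

/-- The correlation of `u` over the cubes with sides `s`. -/
noncomputable def CAu {d : ℕ} (u : ℤ → ℝ) (M : ℕ) (s : Fin d → ℤ) : ℝ :=
  ∑ y ∈ IC M s, GCu u s y

/-- The balanced correlation of `u` over the cubes with sides `s`. -/
noncomputable def TTu {d : ℕ} (u : ℤ → ℝ) (p M : ℕ) (s : Fin d → ℤ) : ℝ :=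
  ∑ y ∈ IC M s, bal p y * GCu u s y

/-- The decoupling defect of `u` at the scale `M`. -/
noncomputable def DDu (d : ℕ) (u : ℤ → ℝ) (p M : ℕ) : ℝ :=
  (p : ℝ) ^ d * ∑ s ∈ mulc d p M, (TTu u p M s) ^ 2

/-- The twisted sum of the cube product of `u`, all the vertices in `[1, N]`. -/
noncomputable def hsu {d : ℕ} (u : ℤ → ℝ) (N : ℕ) (s : Fin d → ℤ) (θ : ℝ) : ℂ :=
  ∑ n ∈ IC N s, ((GCu u s n : ℝ) : ℂ) * ee (n * θ)

/-- The correlations over the cubes with sides `(s₀, z)`, `s₀` in `Q ℤ`, twisted. -/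
noncomputable def RZu {d : ℕ} (u : ℤ → ℝ) (Q M : ℕ) (z : Fin d → ℤ) (φ : ℝ) : ℂ :=
  ∑ s₀ ∈ mul Q M, ee (s₀ * φ) * ((CAu u M (cns s₀ z) : ℝ) : ℂ)

/-- The balanced correlations over the cubes with sides `(s₀, z)`, `s₀` in `p ℤ`. -/
noncomputable def TZu {d : ℕ} (u : ℤ → ℝ) (p M : ℕ) (z : Fin d → ℤ) : ℝ :=
  ∑ s₀ ∈ mul p M, |TTu u p M (cns s₀ z)|

/-- Half of the difference of the product of the problem and of `Ψ`. -/
noncomputable def uh {l : ℕ} (h : Fin l → ℕ) (Ψ : ℤ → ℝ) (p : ℕ) (y : ℤ) : ℝ :=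
  (FF h p y - Ψ y) / 2

/-- The sum of the norms of the sums over `p`. -/
noncomputable def Om2u {q : ℕ} [NeZero q] {d : ℕ} (u : ℕ → ℤ → ℝ) (N M Q : ℕ) (A : Finset ℕ)
    (R : Finset ((Fin d → ZMod q) × (Fin d → ZMod q))) (τ : (Fin d → ZMod q) → ZMod q) : ℝ :=
  ∑ v ∈ box d (M / Q), ∑ c ∈ box d (3 * N), ∑ b : Fin d → ZMod q, ∑ s₀ ∈ mul Q M,
    ‖∑ p ∈ As A R Q v c b, ee (s₀ * phs τ Q v c (p : ℤ)) *
      ((CAu (u p) M (cns s₀ (sm p (pt Q v c (p : ℤ)))) : ℝ) : ℂ)‖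

/-- The functions of the generalised von Neumann inequality: `F` on the vertices in `S₀` (with
first side `0`) and in `S₁` (with first side `s₀`), `Ψ` on the other ones. -/
noncomputable def GGu {l d : ℕ} (Ψ : ℤ → ℝ) (M B : ℕ) (Q s₀ : ℤ) (u : Fin d → ℤ)
    (S₀ S₁ : Finset (Finset (Fin d))) (x : Finset (Fin d) × Option (Fin l)) (z : ℤ) : ℝ :=
  match x.2 with
  | none => ind ((1 ≤ z + Q * sI u x.1 ∧ z + Q * sI u x.1 ≤ M) ∧
      (1 ≤ z + Q * sI u x.1 + s₀ ∧ z + Q * sI u x.1 + s₀ ≤ M)) *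
      ((if x.1 ∈ S₀ then 1 else Ψ (z + Q * sI u x.1)) *
        (if x.1 ∈ S₁ then 1 else Ψ (z + Q * sI u x.1 + s₀)))
  | some _ => ind (1 ≤ z + Q * sI u x.1 ∧ z + Q * sI u x.1 ≤ (M : ℤ) + B) *
      ((if x.1 ∈ S₀ then lz (z + Q * sI u x.1) else 1) *
        (if x.1 ∈ S₁ then lz (z + Q * sI u x.1 + s₀) else 1))

end Pool.Agent.H66.GUS
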