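import Pool.Agent.H66.GUS.Targets2
import Pool.Agent.H66.GUA.GB
import Pool.Agent.H91.LF.Basic

/-!
Module GB of the chapter A2/A3 of the project GUS on `MP_c59857_nt`.
-/

set_option autoImplicit false

open Finset Filter Topology

namespace Pool.Agent.H66.GUS

open Pool.Agent.H24.T2 (Pset box cub)
open Pool.Agent.H31.DP
open Pool.Agent.H31.DPD
open Pool.Agent.H66.GUA

theorem DDu_nonneg (d : ℕ) (u : ℤ → ℝ) (p M : ℕ) : 0 ≤ DDu d u p M := by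
  unfold DDu
  exact mul_nonneg (by positivity) (Finset.sum_nonneg (fun s _ => sq_nonneg _))

theorem abs_FF_le {l : ℕ} (h : Fin l → ℕ) (p : ℕ) (y : ℤ) : |FF h p y| ≤ 1 := by
  unfold FF
  rw [Finset.abs_prod]
  exact Finset.prod_le_one (fun i _ => abs_nonneg _) fun i _ => Pool.Agent.H91.LF.abs_lz_le _

theorem abs_uh_le {l : ℕ} (h : Fin l → ℕ) (Ψ : ℤ → ℝ) (hΨ : ∀ y, |Ψ y| ≤ 1) (p : ℕ) (y : ℤ) :
    |uh h Ψ p y| ≤ 1 := by
  unfold uh
  have h1 := abs_le.1 (abs_FF_le h p y)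
  have h2 := abs_le.1 (hΨ y)
  rw [abs_le]
  constructor <;> linarith [h1.1, h1.2, h2.1, h2.2]

/-- The number of good primes. -/
theorem card_half {α : Type} (A : Finset α) (D : α → ℝ) (hD : ∀ p ∈ A, 0 ≤ D p)
    (θ V : ℝ) (hθ : 0 < θ) (hV : 0 < V) (hsum : ∑ p ∈ A, D p ≤ θ * A.card * V) :
    1 / 2 * (A.card : ℝ) ≤ ((A.filter (fun p => D p ≤ 2 * θ * V)).card : ℝ) := by
  classical
  have h1 : ((A.filter (fun p => ¬ D p ≤ 2 * θ * V)).card : ℝ) * (2 * θ * V) ≤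
      θ * A.card * V := by
    refine le_trans ?_ hsum
    rw [← nsmul_eq_mul]
    calc (A.filter (fun p => ¬ D p ≤ 2 * θ * V)).card • (2 * θ * V)
        ≤ ∑ p ∈ A.filter (fun p => ¬ D p ≤ 2 * θ * V), D p := by
          apply Finset.card_nsmul_le_sum
          intro p hp
          rw [Finset.mem_filter, not_le] at hp
          exact hp.2.le
      _ ≤ ∑ p ∈ A, D p := by
          apply Finset.sum_le_sum_of_subset_of_nonneg (Finset.filter_subset _ _)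
          intro p hp _
          exact hD p hp
  have h2 : ((A.filter (fun p => ¬ D p ≤ 2 * θ * V)).card : ℝ) ≤ 1 / 2 * A.card := by
    have h3 : ((A.filter (fun p => ¬ D p ≤ 2 * θ * V)).card : ℝ) * (2 * θ * V) ≤
        (1 / 2 * A.card) * (2 * θ * V) := by
      refine le_trans h1 (le_of_eq ?_)
      ring
    exact le_of_mul_le_mul_right h3 (by positivity)
  have h4 : ((A.filter (fun p => D p ≤ 2 * θ * V)).card : ℝ) +
      ((A.filter (fun p => ¬ D p ≤ 2 * θ * V)).card : ℝ) = A.card := by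
    exact_mod_cast Finset.card_filter_add_card_filter_not (s := A) (fun p => D p ≤ 2 * θ * V)
  linarith

/-- The final step for one scale. -/
theorem gbu_scale (hSW : T_SWu) (hHO : T_HOu) (hPH : T_PH) (d l : ℕ) (h : Fin l → ℕ)
    (δ α : ℝ) (hδ : 0 < δ) (hα : 0 < α) (m X P : ℕ) (κ θ : ℝ) (hκ : κ = δ / 2 ^ (d + 2))
    (hθ : θ = δ ^ 6 / (128 * 3 ^ (d + 1))) (hm : 1 ≤ m) (h32 : 3 / 2 ≤ κ * 2 ^ m)
    (hn : 4 * (nf d l : ℝ) ≤
      (δ ^ 3 * α / (384 * (d + 1) * 2 ^ d * κ) / m) ^ (2 ^ nf d l) * (2 * (κ * 2 ^ m)))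
    (hX1 : κ * 2 ^ m ≤ X) (hX2 : (X : ℝ) ≤ κ * 2 ^ m + 1) (A₀ : Finset ℕ) (hA₀ : A₀ ⊆ Pset 1 m)
    (hcard : α * 2 ^ m / m ≤ (A₀.card : ℝ)) (hP1 : 2 ^ m ≤ P) (hP2 : P ≤ 2 ^ (m + 1))
    (hshort : ∀ p ∈ A₀, P < p ∧ p ≤ P + X) :
    ∃ f : ℝ, 0 < f ∧ ∃ N₀ : ℕ,
        ∀ (q : ℕ) [NeZero q] (N M : ℕ), N₀ ≤ N → M / P = N → 5 * N ≤ q → q ≤ 10 * N + 10 →
        ∀ (Ψ g₁ : ℤ → ℝ), (∀ y, |Ψ y| ≤ 1) → (∀ n, |g₁ n| ≤ 1) →
        ∑ p ∈ A₀, DDu (d + 1) (uh h Ψ p) p M ≤ θ * A₀.card * (M : ℝ) ^ (d + 3) →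
        (∀ p ∈ A₀, ∃ σ : ℝ, |σ| = 1 ∧
          ∑ n ∈ Finset.Icc (1 : ℤ) ((M / p : ℕ) : ℤ), |g₁ n - σ * uh h Ψ p (p * n)| ≤ κ * N) →
        ∀ (τ : (Fin d → ZMod q) → ZMod q) (R : Finset ((Fin d → ZMod q) × (Fin d → ZMod q))),
        δ * (q : ℝ) ^ (2 * d) ≤ (R.card : ℝ) →
        (∀ x ∈ R, δ * q ≤ ‖hsu g₁ N (lft x.1) (((τ x.1).val : ℝ) / q)‖) →
        ∃ (x : ℤ) (t : Fin (nf d l) → ℤ) (c : Fin d → ZMod q) (r : ZMod q)
          (F : Finset ((Fin d → ZMod q) × (Fin d → ZMod q))), (∀ i, t i ≠ 0) ∧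
          (∀ ω, 0 < vx x t ω ∧ vx x t ω ≤ 2 ^ (m + 1) ∧
            vx x t ω ∣ (primorial (2 ^ (m + 1)) : ℤ)) ∧
          f * (q : ℝ) ^ (2 * d) ≤ (F.card : ℝ) ∧
          ∀ y ∈ F, (∀ ω, ((fun i => c i +
              (((primorial (2 ^ (m + 1)) : ℤ) / vx x t ω : ℤ) : ZMod q) * y.1 i), y.2) ∈ R) ∧
            ∑ ω : Finset (Fin (nf d l)), (-1) ^ ω.card *
              (((primorial (2 ^ (m + 1)) : ℤ) / vx x t ω : ℤ) : ZMod q) *
              τ (fun i => c i +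
                (((primorial (2 ^ (m + 1)) : ℤ) / vx x t ω : ℤ) : ZMod q) * y.1 i) = r := by
  classical
  obtain ⟨Q, hQ⟩ : ∃ Q, Q = primorial (2 ^ (m + 1)) := ⟨_, rfl⟩
  rw [← hQ]
  have hQ0 : 0 < Q := by rw [hQ]; exact primorial_pos _
  have hQr : (0 : ℝ) < Q := by exact_mod_cast hQ0
  have hQr1 : (1 : ℝ) ≤ Q := by exact_mod_cast hQ0
  have hκ0 : 0 < κ := by rw [hκ]; positivity
  have hmr : (0 : ℝ) < m := by exact_mod_cast hm
  obtain ⟨n, hnf⟩ : ∃ n, n = nf d l := ⟨_, rfl⟩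
  rw [← hnf]
  have hn0 : 0 < n := by
    rw [hnf]; unfold nf; positivity
  rw [← hnf] at hn
  obtain ⟨v, hv⟩ : ∃ v : ℝ, v = δ ^ 3 * α / (384 * (d + 1) * 2 ^ d * κ) / m := ⟨_, rfl⟩
  rw [← hv] at hn
  have hv0 : 0 < v := by rw [hv]; positivity
  obtain ⟨g, hg⟩ : ∃ g : ℝ, g = v ^ (2 ^ n) := ⟨_, rfl⟩
  have hg0 : 0 < g := by rw [hg]; positivity
  obtain ⟨C, hC⟩ := exists_nat_ge (22 * (Q : ℝ) / g)
  obtain ⟨H, hH⟩ : ∃ H : ℕ, ∀ i, h i ≤ H :=
    ⟨∑ i, h i, fun i => Finset.single_le_sum (f := h) (fun j _ => Nat.zero_le _)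
      (Finset.mem_univ i)⟩
  obtain ⟨N₁, hN₁⟩ := exists_nat_ge (1 / κ)
  refine ⟨g / 2 * (1 / (11 * Q)) ^ d / (2 * C + 1), by positivity,
    N₁ + 10 + 2 ^ (m + 1) + Q + 2 ^ (m + 1) * H, ?_⟩
  intro q _ N M hN hMN hq1 hq2 Ψ g₁ hΨ hg₁ hsum hcl τ R hR hR2
  -- sizes
  have hP0 : 0 < P := lt_of_lt_of_le (by positivity) hP1
  have hPr : (0 : ℝ) < P := by exact_mod_cast hP0
  have hN10 : 10 ≤ N := by omega
  have hN0 : 0 < N := by omega
  have hNr : (1 : ℝ) ≤ N := by exact_mod_cast hN0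
  have hNP : P ≤ N := by omega
  have hNQ : Q ≤ N := by omega
  have hκN : 1 ≤ κ * N := by
    have h1 : (N₁ : ℝ) ≤ N := by
      have : N₁ ≤ N := by omega
      exact_mod_cast this
    have h2 : 1 / κ ≤ N := le_trans hN₁ h1
    rw [div_le_iff₀ hκ0] at h2
    linarith
  have hMlt : M < P * (N + 1) := by
    rw [← hMN]
    have := Nat.lt_mul_div_succ M hP0
    simpa [Nat.succ_eq_add_one] using this
  have hPN : P * N ≤ M := by
    rw [← hMN]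
    exact Nat.mul_div_le M P
  have hNM : N ≤ M := aux_NM hP0 hPN
  have hM0 : 0 < M := by omega
  have hMr : (0 : ℝ) < M := by exact_mod_cast hM0
  have hqr1 : 5 * (N : ℝ) ≤ q := by exact_mod_cast hq1
  have hqr : (0 : ℝ) < q := by linarith
  have hq11 : (q : ℝ) ≤ 11 * N := by
    have : q ≤ 11 * N := by omega
    exact_mod_cast this
  have hMPq : (M : ℝ) ≤ P * q := by
    have h1 : (M : ℝ) ≤ P * (N + 1) := by exact_mod_cast hMlt.le
    have h2 : (N : ℝ) + 1 ≤ q := by linarith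
    exact le_trans h1 (mul_le_mul_of_nonneg_left h2 hPr.le)
  -- the set of primes
  obtain ⟨A, hA⟩ : ∃ A : Finset ℕ, A = A₀.filter
      (fun p => DDu (d + 1) (uh h Ψ p) p M ≤ 2 * θ * (M : ℝ) ^ (d + 3)) := ⟨_, rfl⟩
  have hθ0 : 0 < θ := by rw [hθ]; positivity
  have hAcard : 1 / 2 * (A₀.card : ℝ) ≤ (A.card : ℝ) := by
    rw [hA]
    exact card_half A₀ (fun p => DDu (d + 1) (uh h Ψ p) p M)
      (fun p _ => DDu_nonneg _ _ _ _) θ ((M : ℝ) ^ (d + 3)) hθ0 (by positivity) hsum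
  have hAmem : ∀ p ∈ A, p ∈ Pset 1 m ∧ P < p ∧ p ≤ P + X ∧
      DDu (d + 1) (uh h Ψ p) p M ≤ 2 * θ * (M : ℝ) ^ (d + 3) ∧ p ∈ A₀ := by
    intro p hp
    rw [hA, Finset.mem_filter] at hp
    exact ⟨hA₀ hp.1, (hshort p hp.1).1, (hshort p hp.1).2, hp.2, hp.1⟩
  have hAQ : ∀ p ∈ A, 0 < p ∧ p ∣ Q := by
    intro p hp
    obtain ⟨h1, _⟩ := hAmem p hp
    exact ⟨(mem_Pset h1).1.pos, by rw [hQ]; exact dvd_prim h1⟩
  have hA0 : (0 : ℝ) < A.card := by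
    have h1 : 0 < α * 2 ^ m / m := by positivity
    linarith
  have hPQ : P ≤ Q := by
    have h1 : A.Nonempty := by
      rw [← Finset.card_pos]
      exact_mod_cast hA0
    obtain ⟨p, hp⟩ := h1
    have h2 := hAmem p hp
    have h3 := Nat.le_of_dvd hQ0 (hAQ p hp).2
    omega
  have hXd : ∀ p ∈ A, ∀ p' ∈ A, |(p : ℤ) - p'| ≤ (X : ℤ) := by
    intro p hp p' hp'
    have h1 := hAmem p hp
    have h2 := hAmem p' hp'
    rw [abs_le]
    constructor <;> omega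
  -- the lower bound for Om2
  have hSW' := hSW d (uh h Ψ) g₁ q N M Q P A δ (2 * θ) (κ * N) τ R hQ0 hN0 hq1 hδ (by positivity)
    (by
      have : 64 * 3 ^ (d + 1) * (2 * θ) = δ ^ 6 := by
        rw [hθ]
        field_simp
        norm_num
      exact this.le) (fun p n => abs_uh_le h Ψ hΨ p n) hg₁ (by
      intro p hp
      obtain ⟨h1, h2, h3, h4, h0⟩ := hAmem p hp
      obtain ⟨h5, h6, h7⟩ := mem_Pset h1
      refine ⟨h5.pos, (hAQ p hp).2, h2.le, ?_, ?_, ?_, ?_, h4, hcl p h0⟩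
      · omega
      · rw [← hMN]
        exact Nat.div_le_div_left h2.le hP0
      · exact aux_Mp hMlt hNP h2
      · have h9 := floor_diff M P p N X m κ hP1 h2 h3 hX2 hκ0 (by linarith) hMN hκN hN0
        have h10 : 2 ^ d * ((N : ℝ) - ((M / p : ℕ) : ℝ) + κ * N) ≤ 2 ^ d * (6 * κ * N) :=
          mul_le_mul_of_nonneg_left (by linarith) (by positivity)
        have h11 : 2 ^ d * (6 * κ * N) = 3 / 2 * δ * N := by
          rw [hκ, pow_add]
          field_simp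
          ring
        have h12 : 3 / 2 * δ * N ≤ δ / 2 * q := by
          have h13 : δ / 2 * (5 * (N : ℝ)) ≤ δ / 2 * q :=
            mul_le_mul_of_nonneg_left hqr1 (by positivity)
          have h14 : 0 ≤ δ * (N : ℝ) := by positivity
          linarith
        linarith) hR hR2
  obtain ⟨U, hU⟩ : ∃ U : ℕ, U = M / Q := ⟨_, rfl⟩
  rw [← hU] at hSW'
  have hUr : (0 : ℝ) ≤ U := Nat.cast_nonneg U
  have hQU : (Q : ℝ) * (2 * U + 1) ≤ 3 * M := by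
    have h1 : Q * U ≤ M := by rw [hU]; exact Nat.mul_div_le M Q
    have h2 : Q * (2 * U + 1) ≤ 3 * M := aux_QU h1 (le_trans hNQ hNM)
    exact_mod_cast h2
  obtain ⟨B, hB⟩ : ∃ B : ℕ, B = 2 ^ (m + 1) * H := ⟨_, rfl⟩
  have hBM : (B : ℝ) ≤ M := by
    have : B ≤ M := by omega
    exact_mod_cast this
  have hBp : ∀ p ∈ A, ∀ i, p * h i ≤ B := by
    intro p hp i
    rw [hB]
    exact Nat.mul_le_mul (mem_Pset (hAmem p hp).1).2.2 (hH i)
  have hHO' := hHO d l h Ψ q N M Q X B A τ R hΨ hQ0 hAQ hBp hXd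
  rw [← hU, ← hnf] at hHO'
  have h6N : 6 * (N : ℝ) + 1 ≤ 2 * q := by linarith
  have h2X : (0 : ℝ) < 2 * X + 1 := by positivity
  have hLpos : (0 : ℝ) < (2 * d + 1) * M + B := by positivity
  have hLle : (2 * (d : ℝ) + 1) * M + B ≤ (2 * d + 2) * M := by linarith
  have hV := v_lower d A.card δ P q Q U N ((2 * d + 1) * M + B) (2 * X + 1) M hA0.le hδ hPr hqr
    hQr hUr hNr hLpos h2X hMr h6N hQU hLle hMPq
  -- v is a lower bound
  have hvle : v ≤ A.card * δ ^ 3 / (48 * (d + 1) * 2 ^ d * (2 * X + 1)) := by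
    have h1 : (2 * (X : ℝ) + 1) ≤ 4 * (κ * 2 ^ m) := by linarith
    have h2 : 1 / 2 * (α * 2 ^ m / m) ≤ A.card :=
      le_trans (mul_le_mul_of_nonneg_left hcard (by norm_num)) hAcard
    rw [le_div_iff₀ (by positivity), hv]
    have h3 : δ ^ 3 * α / (384 * (d + 1) * 2 ^ d * κ) / m * (48 * (d + 1) * 2 ^ d * (2 * X + 1)) =
        (δ ^ 3 * α / (8 * κ * m)) * (2 * X + 1) := by
      field_simp
      norm_num
    rw [h3]
    calc (δ ^ 3 * α / (8 * κ * m)) * (2 * X + 1) ≤ (δ ^ 3 * α / (8 * κ * m)) * (4 * (κ * 2 ^ m)) :=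
          mul_le_mul_of_nonneg_left h1 (by positivity)
      _ = (1 / 2 * (α * 2 ^ m / m)) * δ ^ 3 := by
          field_simp
          norm_num
      _ ≤ A.card * δ ^ 3 := mul_le_mul_of_nonneg_right h2 (by positivity)
  have hO2 : A.card * (2 * (U : ℝ) + 1) ^ d * (δ ^ 3 / 8 * (P : ℝ) ^ 2 * (q : ℝ) ^ (2 * d + 2)) /
      Q ≤ Om2u (uh h Ψ) N M Q A R τ := by
    rw [div_le_iff₀ hQr]
    linarith
  have hTpos : (0 : ℝ) < (2 * (U : ℝ) + 1) ^ (d + 1) * (6 * (N : ℝ) + 1) ^ d * (q : ℝ) ^ d := by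
    positivity
  have hO3 := om3_lower (2 ^ n) n (by
      have := Nat.lt_two_pow_self (n := n)
      omega) _ ((2 * (U : ℝ) + 1) ^ (d + 1) * (6 * (N : ℝ) + 1) ^ d * (q : ℝ) ^ d)
    ((2 * d + 1) * M + B) (2 * X + 1) (Om2u (uh h Ψ) N M Q A R τ) (Om3 n N M Q X A R τ) v hTpos
    hLpos h2X hv0.le (le_trans (mul_le_mul_of_nonneg_right hvle (by positivity)) hV) hO2 (by
      refine le_trans hHO' (le_of_eq ?_)
      push_cast
      ring)
  rw [← hg] at hO3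
  -- pigeonhole
  have hUlow : (q : ℝ) / (11 * Q) ≤ 2 * (U : ℝ) + 1 := by
    have h1 : (M : ℝ) < Q * (U + 1) := by
      have := Nat.lt_mul_div_succ M hQ0
      rw [← hU] at this
      have h2 : M < Q * (U + 1) := by simpa [Nat.succ_eq_add_one] using this
      exact_mod_cast h2
    have h7 : 1 ≤ U := by
      rw [hU]
      exact Nat.div_pos (le_trans hNQ hNM) hQ0
    exact aux_Ulow hQr (by exact_mod_cast h7) h1 (by exact_mod_cast hNM) hq11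
  have hCq : (q : ℝ) ≤ g / 2 * C * (2 * ((M / Q : ℕ) : ℝ) + 1) := by
    rw [← hU]
    have h1 : 22 * (Q : ℝ) ≤ g * C := by
      rw [div_le_iff₀ hg0] at hC
      linarith
    have h2 : g / 2 * C * ((q : ℝ) / (11 * Q)) ≤ g / 2 * C * (2 * (U : ℝ) + 1) :=
      mul_le_mul_of_nonneg_left hUlow (by positivity)
    have h3 : (q : ℝ) ≤ g / 2 * C * ((q : ℝ) / (11 * Q)) := by
      have h4 : g / 2 * C * ((q : ℝ) / (11 * Q)) = (g * C) * q / (22 * Q) := by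
        field_simp
        ring
      rw [h4, le_div_iff₀ (by positivity)]
      have := mul_le_mul_of_nonneg_right h1 hqr.le
      linarith
    linarith
  have h2Uq : 2 * (M / Q) + 1 ≤ q := by
    have h1 : M / Q ≤ N := by
      rw [← hMN]
      exact Nat.div_le_div_left hPQ hP0
    omega
  obtain ⟨x, t, c, r, F, ht, hvx, hF, hFy⟩ := hPH d n q N M Q X C A g τ R hn0 hQ0 hg0 hAQ hXd
    (by
      refine le_trans hn ?_
      rw [hg]
      apply mul_le_mul_of_nonneg_left _ (by positivity)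
      linarith) hCq h2Uq (by
      rw [← hU]
      refine le_trans (le_of_eq ?_) hO3
      ring)
  refine ⟨x, t, c, r, F, ht, ?_, ?_, hFy⟩
  · intro ω
    obtain ⟨p, hp, hpv⟩ := hvx ω
    rw [hpv]
    obtain ⟨h1, h2⟩ := hAQ p hp
    refine ⟨by exact_mod_cast h1, ?_, by exact_mod_cast h2⟩
    exact_mod_cast (mem_Pset (hAmem p hp).1).2.2
  · rw [← hU] at hF
    have h1 : g / 2 * ((q : ℝ) / (11 * Q)) ^ d * (q : ℝ) ^ d ≤
        g / 2 * (2 * (U : ℝ) + 1) ^ d * (q : ℝ) ^ d := by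
      apply mul_le_mul_of_nonneg_right _ (by positivity)
      apply mul_le_mul_of_nonneg_left _ (by positivity)
      exact pow_le_pow_left₀ (by positivity) hUlow d
    have h2 : g / 2 * (1 / (11 * (Q : ℝ))) ^ d / (2 * C + 1) * (q : ℝ) ^ (2 * d) * (2 * C + 1) =
        g / 2 * ((q : ℝ) / (11 * Q)) ^ d * (q : ℝ) ^ d := by
      have h3 : (q : ℝ) / (11 * Q) = (1 / (11 * Q)) * q := by ring
      rw [h3, mul_pow, pow_mul', pow_two]
      field_simp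
    have h4 : (0 : ℝ) < 2 * C + 1 := by positivity
    have h5 : g / 2 * (1 / (11 * (Q : ℝ))) ^ d / (2 * C + 1) * (q : ℝ) ^ (2 * d) * (2 * C + 1) ≤
        F.card * (2 * C + 1) := by
      rw [h2]
      linarith
    exact le_of_mul_le_mul_right h5 h4

theorem pf_GBu (hSW : T_SWu) (hHO : T_HOu) (hPH : T_PH) : T_GBu := by
  intro d l δ hδ hδ1
  obtain ⟨κ, hκ⟩ : ∃ κ : ℝ, κ = δ / 2 ^ (d + 2) := ⟨_, rfl⟩
  have hκ0 : 0 < κ := by rw [hκ]; positivity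
  refine ⟨κ, hκ0, fun h α hα => ?_⟩
  obtain ⟨m₀, hm₀⟩ := exists_m0 (2 ^ nf d l) (nf d l)
    (δ ^ 3 * α / (384 * (d + 1) * 2 ^ d * κ)) κ (by positivity) hκ0
  refine ⟨δ ^ 6 / (128 * 3 ^ (d + 1)), by positivity, m₀, fun m A P hm hA hcard hP1 hP2 hAP => ?_⟩
  obtain ⟨hm1, h32, hn⟩ := hm₀ m hm
  obtain ⟨X, hX⟩ : ∃ X : ℕ, X = ⌊κ * 2 ^ m⌋₊ + 1 := ⟨_, rfl⟩
  have hX1 : κ * 2 ^ m ≤ X := by
    rw [hX]
    push_cast
    exact (Nat.lt_floor_add_one _).le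
  have hX2 : (X : ℝ) ≤ κ * 2 ^ m + 1 := by
    rw [hX]
    push_cast
    have := Nat.floor_le (a := κ * 2 ^ m) (by positivity)
    linarith
  refine gbu_scale hSW hHO hPH d l h δ α hδ hα m X P κ _ hκ rfl hm1 h32 hn hX1 hX2 A hA hcard hP1
    hP2 fun p hp => ⟨(hAP p hp).1, ?_⟩
  have h1 : (p : ℝ) ≤ ((P + X : ℕ) : ℝ) := by
    push_cast
    linarith [(hAP p hp).2]
  exact_mod_cast h1

end Pool.Agent.H66.GUS
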