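import Pool.Agent.H66.GUS.Defs

/-!
Statements of the modules of the chapter A2/A3 (affine trick) of the project GUS on
`MP_c59857_nt`.
-/

set_option autoImplicit false

open Finset Filter Topology

namespace Pool.Agent.H66.GUS

open Pool.Agent.H91.LF (lz Bdd Mean sqw par)
open Pool.Agent.H24.T2 (Pset box cub)
open Pool.Agent.H31.DP
open Pool.Agent.H31.DPD
open Pool.Agent.H66.GUA

/-! ## One prime -/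

/-- [CC] Separating one side of the cube. -/
def T_CCu : Prop :=
  ∀ (d : ℕ) (u : ℤ → ℝ) (M : ℕ) (s₀ : ℤ) (z : Fin d → ℤ) (y : ℤ),
    (y ∈ IC M (cns s₀ z) ↔ y ∈ IC M z ∧ y + s₀ ∈ IC M z) ∧
    GCu u (cns s₀ z) y = GCu u z y * GCu u z (y + s₀)

/-- [DL] Dilation by `p`. -/
def T_DLu : Prop :=
  ∀ (d : ℕ) (u : ℤ → ℝ) (p M : ℕ) (s : Fin d → ℤ) (θ : ℝ), 0 < p →
    ∑ y ∈ (IC M (sm p s)).filter (fun y => (p : ℤ) ∣ y),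
      ((GCu u (sm p s) y : ℝ) : ℂ) * ee (y * (θ / p)) =
    hsu (fun n => u (p * n)) (M / p) s θ

/-- [LA] The comparison for one prime and one cube. -/
def T_LAu : Prop :=
  ∀ (d : ℕ) (u : ℤ → ℝ) (p Q M : ℕ) (s : Fin d → ℤ) (θ : ℝ), 0 < p → p ∣ Q → 0 < Q →
    (p : ℝ) ^ 2 * ‖hsu (fun n => u (p * n)) (M / p) s θ‖ ^ 2 ≤
      Q * (RZu u Q M (sm p s) (θ / p)).re + p * TZu u p M (sm p s)

/-- [CN] Changing the length and the function. -/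
def T_CNu : Prop :=
  ∀ (d : ℕ) (u v : ℤ → ℝ) (σ : ℝ) (N N' : ℕ) (E : ℝ) (s : Fin d → ℤ) (θ : ℝ), N' ≤ N →
    |σ| = 1 → (∀ n, |u n| ≤ 1) → (∀ n, |v n| ≤ 1) →
    ∑ n ∈ Finset.Icc (1 : ℤ) N', |u n - σ * v n| ≤ E →
    ‖hsu u N s θ‖ ≤ ‖hsu v N' s θ‖ + 2 ^ d * ((N : ℝ) - N' + E)

/-- [TP] The balanced correlations are small in the mean. -/
def T_TPu : Prop :=
  ∀ (d : ℕ) (u : ℤ → ℝ) (p M : ℕ), 0 < p → p ≤ M →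
    (p : ℝ) ^ (d + 1) * ∑ z ∈ mulc d p M, TZu u p M z ≤
      Real.sqrt ((3 * (M : ℝ)) ^ (d + 1) * DDu (d + 1) u p M)

/-- [EV] Long sides. -/
def T_EVu : Prop :=
  ∀ (d : ℕ) (u : ℤ → ℝ) (p Q M : ℕ) (z : Fin d → ℤ), (∃ i, (M : ℤ) ≤ |z i|) →
    (∀ φ : ℝ, RZu u Q M z φ = 0) ∧ TZu u p M z = 0

/-- [P1] One prime. -/
def T_P1u : Prop :=
  ∀ (d : ℕ) (u g : ℤ → ℝ) (σ : ℝ) (q : ℕ) [NeZero q] (N M p Q : ℕ) (δ θ E : ℝ)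
    (τ : (Fin d → ZMod q) → ZMod q) (R : Finset ((Fin d → ZMod q) × (Fin d → ZMod q))),
    0 < p → p ∣ Q → 0 < Q → p ≤ M → M / p ≤ N → M ≤ q * p → 0 < δ → 0 ≤ θ →
    |σ| = 1 → (∀ n, |u n| ≤ 1) → (∀ n, |g n| ≤ 1) →
    ∑ n ∈ Finset.Icc (1 : ℤ) ((M / p : ℕ) : ℤ), |g n - σ * u (p * n)| ≤ E →
    2 ^ d * ((N : ℝ) - (M / p : ℕ) + E) ≤ δ / 2 * q →
    DDu (d + 1) u p M ≤ θ * (M : ℝ) ^ (d + 3) →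
    64 * 3 ^ (d + 1) * θ ≤ δ ^ 6 → δ * (q : ℝ) ^ (2 * d) ≤ (R.card : ℝ) →
    (∀ x ∈ R, δ * q ≤ ‖hsu g N (lft x.1) (((τ x.1).val : ℝ) / q)‖) →
    δ ^ 3 / 8 * (p : ℝ) ^ 2 * (q : ℝ) ^ (2 * d + 2) ≤
      Q * ∑ x ∈ R, (RZu u Q M (sm p (lft x.1)) (((τ x.1).val : ℝ) / q / p)).re

/-- [SW] The sum over the primes. -/
def T_SWu : Prop :=
  ∀ (d : ℕ) (u : ℕ → ℤ → ℝ) (g : ℤ → ℝ) (q : ℕ) [NeZero q] (N M Q P : ℕ) (A : Finset ℕ)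
    (δ θ E : ℝ) (τ : (Fin d → ZMod q) → ZMod q)
    (R : Finset ((Fin d → ZMod q) × (Fin d → ZMod q))),
    0 < Q → 0 < N → 5 * N ≤ q → 0 < δ → 0 ≤ θ → 64 * 3 ^ (d + 1) * θ ≤ δ ^ 6 →
    (∀ p n, |u p n| ≤ 1) → (∀ n, |g n| ≤ 1) →
    (∀ p ∈ A, 0 < p ∧ p ∣ Q ∧ P ≤ p ∧ p ≤ M ∧ M / p ≤ N ∧ M ≤ N * p ∧
      2 ^ d * ((N : ℝ) - (M / p : ℕ) + E) ≤ δ / 2 * q ∧
      DDu (d + 1) (u p) p M ≤ θ * (M : ℝ) ^ (d + 3) ∧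
      ∃ σ : ℝ, |σ| = 1 ∧
        ∑ n ∈ Finset.Icc (1 : ℤ) ((M / p : ℕ) : ℤ), |g n - σ * u p (p * n)| ≤ E) →
    δ * (q : ℝ) ^ (2 * d) ≤ (R.card : ℝ) →
    (∀ x ∈ R, δ * q ≤ ‖hsu g N (lft x.1) (((τ x.1).val : ℝ) / q)‖) →
    (A.card : ℝ) * (2 * ((M / Q : ℕ) : ℝ) + 1) ^ d *
      (δ ^ 3 / 8 * (P : ℝ) ^ 2 * (q : ℝ) ^ (2 * d + 2)) ≤ Q * Om2u u N M Q A R τ

/-! ## The generalised von Neumann inequality -/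

/-- [PR] The correlation over a cube with sides depending on `p` as an average of sums of
products. -/
def T_PRu : Prop :=
  ∀ (d l : ℕ) (h : Fin l → ℕ) (Ψ : ℤ → ℝ) (p B M : ℕ) (Q s₀ : ℤ) (u c : Fin d → ℤ),
    (∀ i, p * h i ≤ B) →
    (2 : ℝ) ^ (2 * 2 ^ d) * CAu (uh h Ψ p) M (cns s₀ (fun i => Q * u i + p * c i)) =
      ∑ S₀ : Finset (Finset (Fin d)), ∑ S₁ : Finset (Finset (Fin d)),
        (-1) ^ (S₀.card + S₁.card) * ∑ y ∈ Finset.Icc (1 : ℤ) M,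
          ∏ x : Finset (Fin d) × Option (Fin l), GGu Ψ M B Q s₀ u S₀ S₁ x (y + p * vv h c x)

/-- [CT] The inequality for the correlations over cubes with sides depending on `p`. -/
def T_CTu : Prop :=
  ∀ (d l : ℕ) (h : Fin l → ℕ) (Ψ : ℤ → ℝ) (A : Finset ℕ) (B X M : ℕ) (Q s₀ : ℤ)
    (u c : Fin d → ℤ) (w : ℤ → ℂ), (∀ y, |Ψ y| ≤ 1) → (∀ p ∈ A, ∀ i, p * h i ≤ B) →
    (∀ p ∈ A, ∀ q ∈ A, |(p : ℤ) - q| ≤ (X : ℤ)) → (∀ i, |Q * u i| ≤ (M : ℤ)) →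
    ‖∑ p ∈ A, w p * ((CAu (uh h Ψ p) M (cns s₀ (fun i => Q * u i + p * c i)) : ℝ) : ℂ)‖ ^
        (2 ^ nf d l) ≤
      ((2 * d + 1) * (M : ℝ) + B) ^ (2 ^ nf d l) *
        (2 * X + 1) ^ (2 ^ nf d l - (nf d l + 1)) *
        (Uc X (nf d l) (A.map Nat.castEmbedding) w).re

/-- [HO] Hoelder's inequality and the expansion over the cubes. -/
def T_HOu : Prop :=
  ∀ (d l : ℕ) (h : Fin l → ℕ) (Ψ : ℤ → ℝ) (q : ℕ) [NeZero q] (N M Q X B : ℕ) (A : Finset ℕ)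
    (τ : (Fin d → ZMod q) → ZMod q) (R : Finset ((Fin d → ZMod q) × (Fin d → ZMod q))),
    (∀ y, |Ψ y| ≤ 1) → 0 < Q → (∀ p ∈ A, 0 < p ∧ p ∣ Q) → (∀ p ∈ A, ∀ i, p * h i ≤ B) →
    (∀ p ∈ A, ∀ p' ∈ A, |(p : ℤ) - p'| ≤ (X : ℤ)) →
    (Om2u (uh h Ψ) N M Q A R τ) ^ (2 ^ nf d l) ≤
      ((2 * ((M / Q : ℕ) : ℝ) + 1) ^ (d + 1) * (6 * (N : ℝ) + 1) ^ d * (q : ℝ) ^ d) ^
          (2 ^ nf d l - 1) *
        (((2 * d + 1) * (M : ℝ) + B) ^ (2 ^ nf d l) *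
          (2 * X + 1) ^ (2 ^ nf d l - (nf d l + 1))) * Om3 (nf d l) N M Q X A R τ

end Pool.Agent.H66.GUS
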