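import Pool.Agent.H66.GUS.Targets
import Pool.Agent.H28.GS.Targets

/-!
The final statements of the chapter A2/A3 (affine trick) of the project GUS on `MP_c59857_nt`.
-/

set_option autoImplicit false

open Finset Filter Topology

namespace Pool.Agent.H66.GUS

open Pool.Agent.H24.T2 (Pset box cub)
open Pool.Agent.H31.DP
open Pool.Agent.H31.DPD
open Pool.Agent.H66.GUA
open Pool.Agent.H28.GU (Dl hat)
open Pool.Agent.H28.GUG (cut)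

/-- [GI] The Fourier coefficients on the cyclic group are integer sums. -/
def T_GIu : Prop :=
  ∀ (d : ℕ) (u : ℤ → ℝ) (q : ℕ) [NeZero q] (N : ℕ) (s : Fin d → ZMod q) (ξ : ZMod q),
    5 * N ≤ q → hat (Dl d s (cut q N u)) ξ = hsu u N (lft s) ((ξ.val : ℝ) / q)

/-- [GB] The affine relation at a scale with a small defect. -/
def T_GBu : Prop :=
  ∀ (d l : ℕ) (δ : ℝ), 0 < δ → δ ≤ 1 → ∃ κ : ℝ, 0 < κ ∧
    ∀ (h : Fin l → ℕ) (α : ℝ), 0 < α → ∃ θ : ℝ, 0 < θ ∧ ∃ m₀ : ℕ,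
      ∀ (m : ℕ) (A : Finset ℕ) (P : ℕ), m₀ ≤ m → A ⊆ Pset 1 m → α * 2 ^ m / m ≤ (A.card : ℝ) →
        2 ^ m ≤ P → P ≤ 2 ^ (m + 1) → (∀ p ∈ A, P < p ∧ (p : ℝ) ≤ P + κ * 2 ^ m) →
      ∃ f : ℝ, 0 < f ∧ ∃ N₀ : ℕ,
        ∀ (q : ℕ) [NeZero q] (N M : ℕ), N₀ ≤ N → M / P = N → 5 * N ≤ q → q ≤ 10 * N + 10 →
        ∀ (Ψ g : ℤ → ℝ), (∀ y, |Ψ y| ≤ 1) → (∀ n, |g n| ≤ 1) →
        ∑ p ∈ A, DDu (d + 1) (uh h Ψ p) p M ≤ θ * A.card * (M : ℝ) ^ (d + 3) →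
        (∀ p ∈ A, ∃ σ : ℝ, |σ| = 1 ∧
          ∑ n ∈ Finset.Icc (1 : ℤ) ((M / p : ℕ) : ℤ), |g n - σ * uh h Ψ p (p * n)| ≤ κ * N) →
        ∀ (τ : (Fin d → ZMod q) → ZMod q) (R : Finset ((Fin d → ZMod q) × (Fin d → ZMod q))),
        δ * (q : ℝ) ^ (2 * d) ≤ (R.card : ℝ) →
        (∀ x ∈ R, δ * q ≤ ‖hsu g N (lft x.1) (((τ x.1).val : ℝ) / q)‖) →
        ∃ (x : ℤ) (t : Fin (nf d l) → ℤ) (c : Fin d → ZMod q) (r : ZMod q)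
          (F : Finset ((Fin d → ZMod q) × (Fin d → ZMod q))), (∀ i, t i ≠ 0) ∧
          (∀ ω, 0 < vx x t ω ∧ vx x t ω ≤ 2 ^ (m + 1) ∧
            vx x t ω ∣ (primorial (2 ^ (m + 1)) : ℤ)) ∧
          f * (q : ℝ) ^ (2 * d) ≤ (F.card : ℝ) ∧
          ∀ y ∈ F, (∀ ω, ((fun i => c i +
              (((primorial (2 ^ (m + 1)) : ℤ) / vx x t ω : ℤ) : ZMod q) * y.1 i), y.2) ∈ R) ∧
            ∑ ω : Finset (Fin (nf d l)), (-1) ^ ω.card *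
              (((primorial (2 ^ (m + 1)) : ℤ) / vx x t ω : ℤ) : ZMod q) *
              τ (fun i => c i +
                (((primorial (2 ^ (m + 1)) : ℤ) / vx x t ω : ℤ) : ZMod q) * y.1 i) = r

end Pool.Agent.H66.GUS
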